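import Pool.Agent.Lib.MP_305fdd_al.Fr.X.LemD
import Pool.Agent.Lib.MP_305fdd_al.Fr.N.Defs

/-!
# MP_305fdd_al, F_r: Lemma X, algebraic core

`Γ` is in the class `H(b)`, generated by a finitely generated subgroup `G2` and an element `t` which
commutes with a nontrivial element of `G2`.  Then not every homomorphism `G2 → ℤ/2` extends to `Γ`
with arbitrary value at `t`.
-/

set_option autoImplicit false
set_option linter.unusedSectionVars false

namespace Pool.Agent.FrX

open Pool.Agent.FrN

section D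

variable {p : ℕ} [hp : Fact p.Prime] {A F : Type} [Group A] [Field F] [Algebra (ZMod p) F]

/-- the ring of entries is finitely generated -/
theorem OO_fg [hA : Group.FG A] (ρ : A →* Matrix.SpecialLinearGroup (Fin 2) F) :
    (OO p ρ).FG := by
  classical
  obtain ⟨S, hS⟩ := Group.fg_def.1 hA
  let S' : Finset A := S ∪ S.image (fun x => x⁻¹)
  let E : Finset F := S'.biUnion fun a => Finset.univ.biUnion fun i : Fin 2 =>
    Finset.univ.image fun j : Fin 2 => (ρ a).1 i j
  refine ⟨E, le_antisymm ?_ ?_⟩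
  · rw [Algebra.adjoin_le_iff]
    intro x hx
    simp only [E, Finset.coe_biUnion, Set.mem_iUnion, Finset.mem_coe, Finset.mem_image] at hx
    obtain ⟨a, _, i, _, j, _, rfl⟩ := hx
    exact mem_OO ρ a i j
  · rw [OO, Algebra.adjoin_le_iff]
    rintro _ ⟨g, i, j, rfl⟩
    have hE : ∀ a ∈ S', ∀ i j, (ρ a).1 i j ∈ Algebra.adjoin (ZMod p) (E : Set F) := by
      intro a ha i j
      refine Algebra.subset_adjoin ?_
      simp only [E, Finset.coe_biUnion, Set.mem_iUnion, Finset.mem_coe, Finset.mem_image]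
      exact ⟨a, ha, i, Finset.mem_univ _, j, Finset.mem_univ _, rfl⟩
    have hg : g ∈ Subgroup.closure (S : Set A) := by rw [hS]; exact Subgroup.mem_top _
    have key : ∀ i j, (ρ g).1 i j ∈ Algebra.adjoin (ZMod p) (E : Set F) := by
      induction hg using Subgroup.closure_induction'' with
      | mem x hx => exact hE x (Finset.mem_union_left _ hx)
      | inv_mem x hx => exact hE _ (Finset.mem_union_right _ (Finset.mem_image_of_mem _ hx))
      | one =>
        intro i j
        rw [map_one]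
        show (1 : Matrix (Fin 2) (Fin 2) F) i j ∈ _
        by_cases h : i = j
        · rw [h, Matrix.one_apply_eq]; exact one_mem _
        · rw [Matrix.one_apply_ne h]; exact zero_mem _
      | mul x y _ _ hx hy =>
        intro i j
        rw [map_mul]
        show ((ρ x).1 * (ρ y).1) i j ∈ _
        rw [Matrix.mul_apply]
        exact Subalgebra.sum_mem _ fun k _ => mul_mem (hx i k) (hy k j)
    exact key i j

/-- LEMMA D for a representation over a field -/
theorem lemD_field [hA : Group.FG A] (ρ : A →* Matrix.SpecialLinearGroup (Fin 2) F)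
    (φ : OO p ρ →+* ZMod p)
    (hφ : ∀ a i j, φ ⟨(ρ a).1 i j, mem_OO ρ a i j⟩ = (1 : Matrix (Fin 2) (Fin 2) (ZMod p)) i j)
    (b : ℕ) [Finite (A →* Multiplicative (ZMod p))]
    (hb : Nat.card (A →* Multiplicative (ZMod p)) ≤ p ^ b) :
    Algebra.trdeg (ZMod p) (OO p ρ) ≤ ((3 * b : ℕ) : Cardinal) := by
  have hft : Algebra.FiniteType (ZMod p) (OO p ρ) :=
    (Subalgebra.fg_iff_finiteType _).1 (OO_fg ρ)
  let M : A → Matrix (Fin 2) (Fin 2) (OO p ρ) := fun a i j => ⟨(ρ a).1 i j, mem_OO ρ a i j⟩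
  have hM : ∀ a, (M a).map (OO p ρ).val = (ρ a).1 := fun a => rfl
  have hinj : Function.Injective (fun N : Matrix (Fin 2) (Fin 2) (OO p ρ) =>
      N.map (OO p ρ).val) := by
    intro N N' h
    ext i j
    exact congrFun (congrFun h i) j
  have hdet : ∀ a, (M a).det = 1 := by
    intro a
    apply Subtype.val_injective
    have h1 := (ρ a).2
    have h2 : (OO p ρ).val (M a).det = ((M a).map (OO p ρ).val).det := by
      rw [← AlgHom.mapMatrix_apply, ← AlgHom.map_det]
    show (OO p ρ).val (M a).det = 1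
    rw [h2, hM, h1]
  let ρ' : A →* Matrix.SpecialLinearGroup (Fin 2) (OO p ρ) :=
    { toFun := fun a => ⟨M a, hdet a⟩
      map_one' := by
        apply Subtype.ext
        apply hinj
        show (M 1).map (OO p ρ).val = (1 : Matrix (Fin 2) (Fin 2) (OO p ρ)).map (OO p ρ).val
        rw [hM, map_one, Matrix.map_one _ (map_zero _) (map_one _)]
        rfl
      map_mul' := fun a a' => by
        apply Subtype.ext
        apply hinj
        show (M (a * a')).map (OO p ρ).val = (M a * M a').map (OO p ρ).val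
        rw [hM, map_mul, Matrix.map_mul, hM, hM]
        rfl }
  refine lemD ρ' φ (fun a i j => hφ a i j) ?_ b hb
  rw [eq_top_iff]
  rintro ⟨x, hx⟩ _
  have h1 : ∀ x (hx : x ∈ OO p ρ), (⟨x, hx⟩ : OO p ρ) ∈ Algebra.adjoin (ZMod p)
      {x : OO p ρ | ∃ a i j, x = (ρ' a : Matrix (Fin 2) (Fin 2) (OO p ρ)) i j} := by
    intro x hx
    refine Algebra.adjoin_induction (p := fun x hx => (⟨x, hx⟩ : OO p ρ) ∈
      Algebra.adjoin (ZMod p) {x : OO p ρ | ∃ a i j,
        x = (ρ' a : Matrix (Fin 2) (Fin 2) (OO p ρ)) i j}) ?_ ?_ ?_ ?_ hx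
    · rintro _ ⟨a, i, j, rfl⟩
      exact Algebra.subset_adjoin ⟨a, i, j, rfl⟩
    · intro r
      exact Subalgebra.algebraMap_mem _ r
    · intro x y hx hy h h'
      exact add_mem h h'
    · intro x y hx hy h h'
      exact mul_mem h h'
  exact h1 x hx

end D

section T

variable {Γ F : Type} [Group Γ] [Field F] [Algebra (ZMod 2) F]

/-- matrices commuting with a non-scalar matrix of determinant one, characteristic 2 -/
theorem comm_form {M N : Matrix (Fin 2) (Fin 2) F} (h2 : (2 : F) = 0) (hdet : M.det = 1)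
    (hM : M ≠ 1) (hc : N * M = M * N) :
    ∃ α β : F, ∀ i j, N i j = α * (1 : Matrix (Fin 2) (Fin 2) F) i j + β * M i j := by
  have e00 := congrFun (congrFun hc 0) 0
  have e01 := congrFun (congrFun hc 0) 1
  have e10 := congrFun (congrFun hc 1) 0
  simp only [Matrix.mul_apply, Fin.sum_univ_two] at e00 e01 e10
  by_cases h01 : M 0 1 = 0
  · by_cases h10 : M 1 0 = 0
    · have hne : M 0 0 ≠ M 1 1 := by
        intro h
        apply hM
        rw [Matrix.det_fin_two, h01, ← h, zero_mul, sub_zero] at hdet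
        have h1 : (M 0 0 - 1) ^ 2 = 0 := by linear_combination hdet + (1 - M 0 0) * h2
        have h3 : M 0 0 = 1 := by
          have := pow_eq_zero_iff (two_ne_zero) |>.1 h1
          exact sub_eq_zero.1 this
        ext i j
        fin_cases i <;> fin_cases j
        · exact h3
        · exact h01
        · exact h10
        · exact h.symm.trans h3
      have hd : M 0 0 - M 1 1 ≠ 0 := sub_ne_zero.2 hne
      rw [h01] at e01
      rw [h10] at e10
      have hy : N 0 1 = 0 := by
        have : (M 0 0 - M 1 1) * N 0 1 = 0 := by linear_combination -e01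
        exact (mul_eq_zero.1 this).resolve_left hd
      have hz : N 1 0 = 0 := by
        have : (M 0 0 - M 1 1) * N 1 0 = 0 := by linear_combination e10
        exact (mul_eq_zero.1 this).resolve_left hd
      refine ⟨N 0 0 - (N 0 0 - N 1 1) / (M 0 0 - M 1 1) * M 0 0,
        (N 0 0 - N 1 1) / (M 0 0 - M 1 1), fun i j => ?_⟩
      fin_cases i <;> fin_cases j
      · show N 0 0 = _ * (1 : Matrix (Fin 2) (Fin 2) F) 0 0 + _ * M 0 0
        rw [Matrix.one_apply_eq]; ring
      · show N 0 1 = _ * (1 : Matrix (Fin 2) (Fin 2) F) 0 1 + _ * M 0 1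
        rw [Matrix.one_apply_ne (by decide), h01, hy]; ring
      · show N 1 0 = _ * (1 : Matrix (Fin 2) (Fin 2) F) 1 0 + _ * M 1 0
        rw [Matrix.one_apply_ne (by decide), h10, hz]; ring
      · show N 1 1 = _ * (1 : Matrix (Fin 2) (Fin 2) F) 1 1 + _ * M 1 1
        rw [Matrix.one_apply_eq]
        field_simp
        ring
    · refine ⟨N 0 0 - N 1 0 / M 1 0 * M 0 0, N 1 0 / M 1 0, fun i j => ?_⟩
      fin_cases i <;> fin_cases j
      · show N 0 0 = _ * (1 : Matrix (Fin 2) (Fin 2) F) 0 0 + _ * M 0 0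
        rw [Matrix.one_apply_eq]; ring
      · show N 0 1 = _ * (1 : Matrix (Fin 2) (Fin 2) F) 0 1 + _ * M 0 1
        rw [Matrix.one_apply_ne (by decide)]
        field_simp
        linear_combination e00
      · show N 1 0 = _ * (1 : Matrix (Fin 2) (Fin 2) F) 1 0 + _ * M 1 0
        rw [Matrix.one_apply_ne (by decide)]
        field_simp
        ring
      · show N 1 1 = _ * (1 : Matrix (Fin 2) (Fin 2) F) 1 1 + _ * M 1 1
        rw [Matrix.one_apply_eq]
        field_simp
        linear_combination e10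
  · refine ⟨N 0 0 - N 0 1 / M 0 1 * M 0 0, N 0 1 / M 0 1, fun i j => ?_⟩
    fin_cases i <;> fin_cases j
    · show N 0 0 = _ * (1 : Matrix (Fin 2) (Fin 2) F) 0 0 + _ * M 0 0
      rw [Matrix.one_apply_eq]; ring
    · show N 0 1 = _ * (1 : Matrix (Fin 2) (Fin 2) F) 0 1 + _ * M 0 1
      rw [Matrix.one_apply_ne (by decide)]
      field_simp
      ring
    · show N 1 0 = _ * (1 : Matrix (Fin 2) (Fin 2) F) 1 0 + _ * M 1 0
      rw [Matrix.one_apply_ne (by decide)]
      field_simp
      linear_combination -e00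
    · show N 1 1 = _ * (1 : Matrix (Fin 2) (Fin 2) F) 1 1 + _ * M 1 1
      rw [Matrix.one_apply_eq]
      field_simp
      linear_combination -e01

/-- a root of a monic quadratic polynomial with algebraic coefficients is algebraic -/
theorem alg_quad {R1 E : Type} [CommRing R1] [IsDomain R1] [Field E] [Algebra R1 E]
    {α b c : E} (hb : IsAlgebraic R1 b) (hc : IsAlgebraic R1 c)
    (h : α ^ 2 + b * α + c = 0) : IsAlgebraic R1 α := by
  let C := Subalgebra.algebraicClosure R1 E
  have hint : IsIntegral C α := by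
    refine ⟨Polynomial.X ^ 2 + Polynomial.C (⟨b, hb⟩ : C) * Polynomial.X +
      Polynomial.C (⟨c, hc⟩ : C), ?_, ?_⟩
    · monicity!
    · simp only [Polynomial.eval₂_add, Polynomial.eval₂_pow, Polynomial.eval₂_X,
        Polynomial.eval₂_mul, Polynomial.eval₂_C]
      exact h
  exact hint.isAlgebraic.restrictScalars R1

/-- adjoining an element of the centraliser of an element raises the transcendence degree by at
most one -/
theorem trdeg_step (ρ : Γ →* Matrix.SpecialLinearGroup (Fin 2) F) (G2 : Subgroup Γ) (t m : Γ)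
    (hm : m ∈ G2) (hm1 : ρ m ≠ 1) (ht : ρ t * ρ m = ρ m * ρ t)
    (hgen : Subgroup.closure ((G2 : Set Γ) ∪ {t}) = ⊤) (hF : Frc (OO 2 ρ)) :
    Algebra.trdeg (ZMod 2) F ≤ Algebra.trdeg (ZMod 2) (OO 2 (ρ.comp G2.subtype)) + 1 := by
  set O2 := OO 2 (ρ.comp G2.subtype) with hO2
  have h2 : (2 : F) = 0 := by
    have : ((2 : ZMod 2)) = 0 := by decide
    have h := congrArg (algebraMap (ZMod 2) F) this
    rwa [map_ofNat, map_zero] at h
  obtain ⟨α, β, hαβ⟩ := comm_form (M := (ρ m).1) (N := (ρ t).1) h2 (ρ m).2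
    (fun h => hm1 (Subtype.ext h)) (congrArg Subtype.val ht)
  let R1 := Algebra.adjoin O2 {β}
  have hO : ∀ x ∈ O2, IsAlgebraic R1 x := by
    intro x hx
    have : x = algebraMap R1 F (algebraMap O2 R1 ⟨x, hx⟩) := rfl
    rw [this]
    exact isAlgebraic_algebraMap _
  have hent : ∀ g ∈ G2, ∀ i j, IsAlgebraic R1 ((ρ g).1 i j) := by
    intro g hg i j
    exact hO _ (mem_OO (ρ.comp G2.subtype) ⟨g, hg⟩ i j)
  have hβ : IsAlgebraic R1 β := by
    have : IsAlgebraic R1 (algebraMap R1 F ⟨β, Algebra.subset_adjoin rfl⟩) :=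
      isAlgebraic_algebraMap _
    exact this
  have hα : IsAlgebraic R1 α := by
    have hdet : α ^ 2 + (β * ((ρ m).1 0 0 + (ρ m).1 1 1)) * α + (β ^ 2 - 1) = 0 := by
      have h3 := (ρ t).2
      have h4 := (ρ m).2
      rw [Matrix.det_fin_two] at h3 h4
      rw [hαβ 0 0, hαβ 0 1, hαβ 1 0, hαβ 1 1, Matrix.one_apply_eq, Matrix.one_apply_eq,
        Matrix.one_apply_ne (show (0 : Fin 2) ≠ 1 by decide),
        Matrix.one_apply_ne (show (1 : Fin 2) ≠ 0 by decide)] at h3
      linear_combination h3 - β ^ 2 * h4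
    exact alg_quad (hβ.mul ((hent m hm 0 0).add (hent m hm 1 1))) ((hβ.pow 2).sub isAlgebraic_one)
      hdet
  have hone : ∀ i j, IsAlgebraic R1 ((1 : Matrix (Fin 2) (Fin 2) F) i j) := by
    intro i j
    by_cases h : i = j
    · rw [h, Matrix.one_apply_eq]; exact isAlgebraic_one
    · rw [Matrix.one_apply_ne h]; exact isAlgebraic_zero
  have htt : ∀ i j, IsAlgebraic R1 ((ρ t).1 i j) := by
    intro i j
    rw [hαβ]
    exact (hα.mul (hone i j)).add (hβ.mul (hent m hm i j))
  have hinv : ∀ g, (∀ i j, IsAlgebraic R1 ((ρ g).1 i j)) →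
      ∀ i j, IsAlgebraic R1 ((ρ g⁻¹).1 i j) := by
    intro g hg i j
    have h3 : (ρ g⁻¹).1 = (ρ g).1.adjugate := by
      rw [map_inv]; rfl
    rw [h3, Matrix.adjugate_fin_two]
    fin_cases i <;> fin_cases j
    · exact hg 1 1
    · exact (hg 0 1).neg
    · exact (hg 1 0).neg
    · exact hg 0 0
  have hall : ∀ g, ∀ i j, IsAlgebraic R1 ((ρ g).1 i j) := by
    intro g
    have hg : g ∈ Subgroup.closure ((G2 : Set Γ) ∪ {t}) := by rw [hgen]; exact Subgroup.mem_top _
    induction hg using Subgroup.closure_induction with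
    | mem x hx =>
      rcases hx with hx | hx
      · exact hent x hx
      · rw [Set.mem_singleton_iff.1 hx]; exact htt
    | one =>
      intro i j
      rw [map_one]
      exact hone i j
    | mul x y _ _ hx hy =>
      intro i j
      rw [map_mul]
      show IsAlgebraic R1 (((ρ x).1 * (ρ y).1) i j)
      rw [Matrix.mul_apply, Fin.sum_univ_two]
      exact ((hx i 0).mul (hy 0 j)).add ((hx i 1).mul (hy 1 j))
    | inv x _ hx => exact hinv x hx
  have hOO : ∀ x ∈ OO 2 ρ, IsAlgebraic R1 x := by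
    intro x hx
    rw [OO] at hx
    induction hx using Algebra.adjoin_induction with
    | mem x hx =>
      obtain ⟨g, i, j, rfl⟩ := hx
      exact hall g i j
    | algebraMap r => exact hO _ (Subalgebra.algebraMap_mem _ r)
    | add x y _ _ hx hy => exact hx.add hy
    | mul x y _ _ hx hy => exact hx.mul hy
  have halg : Algebra.IsAlgebraic R1 F := by
    refine ⟨fun x => ?_⟩
    obtain ⟨a, ha, c, hc, hc0, h⟩ := hF x
    have h3 : x = a * c⁻¹ := by rw [← h, mul_assoc, mul_inv_cancel₀ hc0, mul_one]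
    rw [h3]
    exact (hOO a ha).mul (hOO c hc).inv
  have h3 := trdeg_add_eq (ZMod 2) O2 (A := F)
  have h4 := Algebra.IsAlgebraic.trdeg_le_cardinalMk O2 ({β} : Set F) (A := F)
  rw [← h3]
  gcongr
  simpa using h4

end T

section X

variable {b : ℕ} {Γ K F : Type} [Group Γ] [Field K] [Field F] [Algebra (ZMod 2) K]
    [Algebra (ZMod 2) F] [Algebra K F] {T : Γ → K}
    {ρ : Γ →* Matrix.SpecialLinearGroup (Fin 2) F}

/-- LEMMA D for subgroups of a group in the class `H(b)` -/
theorem lemD_sub (h : HB 2 b Γ K F T ρ) (G2 : Subgroup Γ) [Group.FG G2] (c : ℕ)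
    [Finite (G2 →* Multiplicative (ZMod 2))]
    (hc : Nat.card (G2 →* Multiplicative (ZMod 2)) ≤ 2 ^ c) :
    Algebra.trdeg (ZMod 2) (OO 2 (ρ.comp G2.subtype)) ≤ ((3 * c : ℕ) : Cardinal) := by
  obtain ⟨φ, hφ⟩ := h.pts (ZMod 2) 1
  have hle : OO 2 (ρ.comp G2.subtype) ≤ OO 2 ρ := by
    rw [OO, Algebra.adjoin_le_iff]
    rintro _ ⟨g, i, j, rfl⟩
    exact mem_OO ρ (g : Γ) i j
  refine lemD_field (ρ.comp G2.subtype) (φ.comp (Subalgebra.inclusion hle) : _ →ₐ[ZMod 2] _).toRingHom
    ?_ c hc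
  intro a i j
  exact hφ (a : Γ) i j

/-- LEMMA X, algebraic core. -/
theorem lemX (h : HB 2 b Γ K F T ρ) (G2 : Subgroup Γ) (hfg : Group.FG G2) (t m : Γ)
    (hm : m ∈ G2) (hm1 : ρ m ≠ 1) (ht : ρ t * ρ m = ρ m * ρ t)
    (hgen : Subgroup.closure ((G2 : Set Γ) ∪ {t}) = ⊤)
    (hext : ∀ (f : G2 →* Multiplicative (ZMod 2)) (c : Multiplicative (ZMod 2)),
      ∃ f' : Γ →* Multiplicative (ZMod 2), (∀ g : G2, f' g = f g) ∧ f' t = c) : False := by
  have hfin : Finite (Γ →* Multiplicative (ZMod 2)) := by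
    apply Nat.finite_of_card_ne_zero
    rw [h.ab]
    positivity
  choose f' hf' hf't using hext
  have hinj : Function.Injective
      (fun x : (G2 →* Multiplicative (ZMod 2)) × Multiplicative (ZMod 2) => f' x.1 x.2) := by
    rintro ⟨f, c⟩ ⟨g, d⟩ hfg
    have hfg : f' f c = f' g d := hfg
    have h1 : f = g := by
      ext x
      rw [← hf' f c, ← hf' g d, hfg]
    have h2 : c = d := by rw [← hf't f c, ← hf't g d, hfg]
    rw [h1, h2]
  have hfin2 : Finite (G2 →* Multiplicative (ZMod 2)) := by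
    have : Finite ((G2 →* Multiplicative (ZMod 2)) × Multiplicative (ZMod 2)) :=
      Finite.of_injective _ hinj
    exact Finite.of_injective (fun f : G2 →* Multiplicative (ZMod 2) =>
      ((f, 1) : (G2 →* Multiplicative (ZMod 2)) × Multiplicative (ZMod 2)))
      (fun f g h => (Prod.ext_iff.1 h).1)
  have h1 := Nat.card_le_card_of_injective _ hinj
  rw [h.ab, Nat.card_prod] at h1
  have h2 : Nat.card (Multiplicative (ZMod 2)) = 2 := by
    rw [Nat.card_congr Multiplicative.toAdd, Nat.card_zmod]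
  rw [h2] at h1
  have hpos : 0 < Nat.card (G2 →* Multiplicative (ZMod 2)) := Nat.card_pos
  obtain ⟨c, rfl⟩ : ∃ c, b = c + 1 := by
    cases b with
    | zero => rw [pow_zero] at h1; omega
    | succ c => exact ⟨c, rfl⟩
  have h3 : Nat.card (G2 →* Multiplicative (ZMod 2)) ≤ 2 ^ c := by
    rw [pow_succ] at h1; omega
  have h4 := lemD_sub h G2 c h3
  have h5 := trdeg_step ρ G2 t m hm hm1 ht hgen h.fracF
  rw [h.trF] at h5
  have h6 : ((3 * (c + 1 : ℕ) : ℕ) : Cardinal) ≤ ((3 * c + 1 : ℕ) : Cardinal) := by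
    calc ((3 * (c + 1 : ℕ) : ℕ) : Cardinal) = 3 * ((c + 1 : ℕ) : Cardinal) := by push_cast; rfl
      _ ≤ Algebra.trdeg (ZMod 2) (OO 2 (ρ.comp G2.subtype)) + 1 := h5
      _ ≤ ((3 * c : ℕ) : Cardinal) + 1 := by gcongr
      _ = ((3 * c + 1 : ℕ) : Cardinal) := by push_cast; rfl
  have h7 : 3 * (c + 1) ≤ 3 * c + 1 := by exact_mod_cast h6
  omega

end X

end Pool.Agent.FrX
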