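import Pool.Agent.Lib.MP_305fdd_al.Fr.X.Frame
import Pool.Agent.Lib.MP_305fdd_al.Fr.S.Defs

/-!
# MP_305fdd_al, F_r: Lemma X for the splittings of section SP
-/

set_option autoImplicit false
set_option linter.unusedSectionVars false
set_option linter.unusedVariables false

namespace Pool.Agent.FrX

open Pool.Agent.FrN Pool.Agent.FrS

section

variable {Γ : Type} [Group Γ] (S : GG Γ) (x : S.V)

/-- The bipartite graph of subgroups of `S`: the midpoints of the edges (and one more vertex with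
trivial group, joined to `x`) on one side, the vertices of `S` on the other side. -/
def bgv : Option S.E → Subgroup Γ := fun e => e.elim ⊥ S.C

/-- first ends -/
def bvt : Option (S.E × Bool) → Option S.E := fun e => e.elim none fun e => some e.1

/-- second ends -/
def bct : Option (S.E × Bool) → S.V := fun e => e.elim x fun e => if e.2 then S.b e.1 else S.a e.1

/-- elements -/
def bs : Option (S.E × Bool) → Γ := fun e => e.elim 1 fun e => if e.2 then S.s e.1 else 1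

/-- edge groups -/
def bee : Option (S.E × Bool) → Subgroup Γ := fun e => e.elim ⊥ fun e => S.C e.1

theorem b_gen (hS : S.UP) : PGen (bgv S) S.G (bvt S) (bct S x) (bs S) none := by
  intro P Q h1 hP hQ he he'
  have hmid : ∀ e g, g ∈ Q (S.a e) → g ∈ P (some e) := by
    intro e g hg
    have h2 := he' (some (e, false)) g hg
    have h3 : g * (bs S (some (e, false)))⁻¹ = g := by
      show g * (1 : Γ)⁻¹ = g
      rw [inv_one, mul_one]
    rw [h3] at h2
    exact h2
  have hx : (1 : Γ) ∈ Q x := by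
    have h2 := he none 1 h1
    have h3 : (1 : Γ) * bs S none = 1 := by
      show (1 : Γ) * 1 = 1
      rw [one_mul]
    rw [h3] at h2
    exact h2
  have key : ∀ {w g}, S.Pth x w g → g ∈ Q w := by
    intro w g h
    induction h with
    | one => exact hx
    | grp _ hy ih => exact hQ _ _ ih _ hy
    | fwd e _ ih =>
      exact he (some (e, true)) _ (hmid e _ ih)
    | @bwd g e _ ih =>
      have h2 : g * (S.s e)⁻¹ ∈ P (some e) := he' (some (e, true)) g ih
      have h3 := he (some (e, false)) _ h2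
      have h4 : g * (S.s e)⁻¹ * bs S (some (e, false)) = g * (S.s e)⁻¹ := by
        show g * (S.s e)⁻¹ * 1 = _
        rw [mul_one]
      rw [h4] at h3
      exact h3
  have hQu : ∀ c g, g ∈ Q c := fun c g => key (hS.gen x c g)
  refine ⟨?_, hQu⟩
  rintro (_ | e) g
  · have h2 := he' none g (hQu _ _)
    have h3 : g * (bs S none)⁻¹ = g := by
      show g * (1 : Γ)⁻¹ = g
      rw [inv_one, mul_one]
    rw [h3] at h2
    exact h2
  · exact hmid e g (hQu _ _)

open Classical in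
theorem b_up (hS : S.UP) : GU2 (bgv S) S.G (bvt S) (bct S x) (bs S) (bee S) := by
  intro rv rc σ hc
  let F : GG.Fam S (Matrix.SpecialLinearGroup (Fin 2) (ZMod 2)) :=
    { r := fun w y => if h : y ∈ S.G w then rc w ⟨y, h⟩ else 1
      t := fun e => (σ (some (e, false)))⁻¹ * σ (some (e, true))
      mul := by
        intro v y hy z hz
        rw [dif_pos hy, dif_pos hz, dif_pos (mul_mem hy hz), ← map_mul]
        rfl
      cm := by
        intro e c hce
        have h1 := S.Ca e hce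
        have h2 := S.Cb e c hce
        rw [dif_pos h1, dif_pos h2]
        have h3 : (1 : Γ)⁻¹ * c * 1 ∈ S.G (S.a e) := by
          rw [inv_one, one_mul, mul_one]; exact h1
        have h4 : rv (some e) ⟨c, hce⟩ = σ (some (e, false)) * rc (S.a e) ⟨(1 : Γ)⁻¹ * c * 1, h3⟩ *
            (σ (some (e, false)))⁻¹ := hc (some (e, false)) c hce hce h3
        have h5 : rv (some e) ⟨c, hce⟩ = σ (some (e, true)) *
            rc (S.b e) ⟨(S.s e)⁻¹ * c * S.s e, h2⟩ * (σ (some (e, true)))⁻¹ :=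
          hc (some (e, true)) c hce hce h2
        have h6 : (⟨(1 : Γ)⁻¹ * c * 1, h3⟩ : S.G (S.a e)) = ⟨c, h1⟩ := by
          apply Subtype.ext
          show (1 : Γ)⁻¹ * c * 1 = c
          rw [inv_one, one_mul, mul_one]
        rw [h6, h5] at h4
        have h7 : rc (S.a e) ⟨c, h1⟩ = (σ (some (e, false)))⁻¹ * (σ (some (e, false)) *
          rc (S.a e) ⟨c, h1⟩ * (σ (some (e, false)))⁻¹) * σ (some (e, false)) := by group
        rw [h7, ← h4]
        group }
  obtain ⟨r, g, hr⟩ := hS.ext (ZMod 2) F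
  have hvtx : ∀ w (y : S.G w), rc w y = (g w)⁻¹ * r y * g w := by
    intro w y
    have h1 := hr.vtx w y y.2
    have h2 : F.r w y = rc w y := by
      show (if h : (y : Γ) ∈ S.G w then rc w ⟨y, h⟩ else 1) = rc w y
      rw [dif_pos y.2]
    rw [← h2, h1]
  have hedg : ∀ e, (σ (some (e, false)))⁻¹ * σ (some (e, true)) =
      (g (S.a e))⁻¹ * r (S.s e) * g (S.b e) := fun e => hr.edg e
  refine ⟨r, fun e => e.elim (σ none * (g x)⁻¹) fun e => σ (some (e, false)) * (g (S.a e))⁻¹,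
    fun w => (g w)⁻¹, ?_, ?_, ?_⟩
  · rintro (_ | e) ⟨y, hy⟩
    · have h1 : y = 1 := hy
      subst h1
      show rv none 1 = _ * r 1 * _⁻¹
      rw [map_one, map_one, mul_one, mul_inv_cancel]
    · have h1 := S.Ca e hy
      have h3 : (1 : Γ)⁻¹ * y * 1 ∈ S.G (S.a e) := by
        rw [inv_one, one_mul, mul_one]; exact h1
      have h4 : rv (some e) ⟨y, hy⟩ = σ (some (e, false)) * rc (S.a e) ⟨(1 : Γ)⁻¹ * y * 1, h3⟩ *
          (σ (some (e, false)))⁻¹ := hc (some (e, false)) y hy hy h3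
      have h6 : (⟨(1 : Γ)⁻¹ * y * 1, h3⟩ : S.G (S.a e)) = ⟨y, h1⟩ := by
        apply Subtype.ext
        show (1 : Γ)⁻¹ * y * 1 = y
        rw [inv_one, one_mul, mul_one]
      rw [h4, h6, hvtx]
      show _ = (σ (some (e, false)) * (g (S.a e))⁻¹) * r y * (σ (some (e, false)) * (g (S.a e))⁻¹)⁻¹
      group
  · intro w y
    rw [hvtx]
    group
  · rintro (_ | ⟨e, _ | _⟩)
    · show σ none = (σ none * (g x)⁻¹) * r 1 * ((g x)⁻¹)⁻¹
      rw [map_one]
      group
    · show σ (some (e, false)) = (σ (some (e, false)) * (g (S.a e))⁻¹) * r 1 * ((g (S.a e))⁻¹)⁻¹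
      rw [map_one]
      group
    · show σ (some (e, true)) = (σ (some (e, false)) * (g (S.a e))⁻¹) * r (S.s e) *
        ((g (S.b e))⁻¹)⁻¹
      have h1 : σ (some (e, true)) = σ (some (e, false)) *
        ((σ (some (e, false)))⁻¹ * σ (some (e, true))) := by group
      rw [h1, hedg]
      group

end

section Main

variable {b : ℕ} {Γ K F : Type} [Group Γ] [Field K] [Field F] [Algebra (ZMod 2) K]
    [Algebra (ZMod 2) F] [Algebra K F] {T : Γ → K}
    {ρ : Γ →* Matrix.SpecialLinearGroup (Fin 2) F}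

theorem b_ee (S : GG Γ) (x : S.V) (e : Option (S.E × Bool)) (y : Γ) (hy : y ∈ bee S e) :
    y ∈ bgv S (bvt S e) ∧ (bs S e)⁻¹ * y * bs S e ∈ S.G (bct S x e) := by
  rcases e with _ | ⟨e, _ | _⟩
  · have h1 : y = 1 := hy
    subst h1
    refine ⟨one_mem _, ?_⟩
    show (1 : Γ)⁻¹ * 1 * 1 ∈ _
    rw [inv_one, one_mul, mul_one]
    exact one_mem _
  · refine ⟨hy, ?_⟩
    show (1 : Γ)⁻¹ * y * 1 ∈ S.G (S.a e)
    rw [inv_one, one_mul, mul_one]
    exact S.Ca e hy
  · exact ⟨hy, S.Cb e y hy⟩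

/-- LEMMA X.  An abelian vertex group `G x` has no nontrivial homomorphism `lam` to `ℤ` which is
trivial on all edge groups at `x` and whose kernel contains an element `m` with `ρ m ≠ 1`. -/
theorem lemX_hom (h : HB 2 b Γ K F T ρ) (S : GG Γ) (hS : S.UP) (hfgV : ∀ v, (S.G v).FG)
    (hfgE : ∀ e, (S.C e).FG) (x : S.V) (hcomm : ∀ y ∈ S.G x, ∀ z ∈ S.G x, y * z = z * y)
    (lam : S.G x →* Multiplicative ℤ) (x1 : S.G x) (hx1 : lam x1 ≠ 1)
    (ha : ∀ e, S.a e = x → ∀ c ∈ S.C e, ∀ h : c ∈ S.G x, lam ⟨c, h⟩ = 1)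
    (hb : ∀ e, S.b e = x → ∀ c ∈ S.C e, ∀ h : (S.s e)⁻¹ * c * S.s e ∈ S.G x,
      lam ⟨(S.s e)⁻¹ * c * S.s e, h⟩ = 1)
    (m : S.G x) (hm : lam m = 1) (hm1 : ρ m ≠ 1) : False := by
  refine lemX_frame h (b_gen S x hS) (b_up S x hS) ?_ hfgV (b_ee S x) x hcomm lam x1 hx1 ?_ m hm hm1
  · rintro (_ | e)
    · exact Subgroup.FG.bot
    · exact hfgE e
  · rintro (_ | ⟨e, _ | _⟩) y hy hc h2
    · have h1 : y = 1 := hy
      subst h1
      have h3 : (⟨(bs S none)⁻¹ * 1 * bs S none, h2⟩ : S.G x) = 1 := by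
        apply Subtype.ext
        show (1 : Γ)⁻¹ * 1 * 1 = 1
        rw [inv_one, one_mul, mul_one]
      rw [h3, map_one]
    · have h3 : y ∈ S.G x := by
        have h4 : (1 : Γ)⁻¹ * y * 1 ∈ S.G x := h2
        rwa [inv_one, one_mul, mul_one] at h4
      have h5 : (⟨(bs S (some (e, false)))⁻¹ * y * bs S (some (e, false)), h2⟩ : S.G x) =
          ⟨y, h3⟩ := by
        apply Subtype.ext
        show (1 : Γ)⁻¹ * y * 1 = y
        rw [inv_one, one_mul, mul_one]
      rw [h5]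
      exact ha e hc y hy h3
    · exact hb e hc y hy h2

/-- the subgroup generated by the edge groups at `x` -/
def EG {Γ : Type} [Group Γ] (S : GG Γ) (x : S.V) : Subgroup Γ :=
  Subgroup.closure {c | ∃ e, (S.a e = x ∧ c ∈ S.C e) ∨
    (S.b e = x ∧ ∃ d ∈ S.C e, c = (S.s e)⁻¹ * d * S.s e)}

/-- LEMMA X: an abelian vertex group `G x` is of finite index over every subgroup `N` which contains
all edge groups at `x`, if `N` contains an element `m` with `ρ m ≠ 1`. -/
theorem lemX_sub (h : HB 2 b Γ K F T ρ) (S : GG Γ) (hS : S.UP) (hfgV : ∀ v, (S.G v).FG)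
    (hfgE : ∀ e, (S.C e).FG) (x : S.V) (hcomm : ∀ y ∈ S.G x, ∀ z ∈ S.G x, y * z = z * y)
    (N : Subgroup Γ) (hN : N ≤ S.G x)
    (ha : ∀ e, S.a e = x → ∀ c ∈ S.C e, c ∈ N)
    (hb : ∀ e, S.b e = x → ∀ c ∈ S.C e, (S.s e)⁻¹ * c * S.s e ∈ N)
    (m : Γ) (hm : m ∈ N) (hm1 : ρ m ≠ 1) :
    (N.subgroupOf (S.G x)).FiniteIndex ∧ ∀ y ∈ S.G x, ∃ n : ℕ, 0 < n ∧ y ^ n ∈ N := by
  letI : CommGroup (S.G x) := { (inferInstance : Group (S.G x)) with
    mul_comm := fun y z => Subtype.ext (hcomm _ y.2 _ z.2) }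
  have hfg : Group.FG (S.G x) := (Group.fg_iff_subgroup_fg _).2 (hfgV x)
  have key : ∀ y : S.G x, ∃ n : ℕ, 0 < n ∧ y ^ n ∈ N.subgroupOf (S.G x) := by
    intro y
    by_contra hy
    push Not at hy
    obtain ⟨lam, h1, h2⟩ := exists_hom_int (N.subgroupOf (S.G x)) y hy
    exact lemX_hom h S hS hfgV hfgE x hcomm lam y h2
      (fun e he c hc h3 => h1 _ (ha e he c hc)) (fun e he c hc h3 => h1 _ (hb e he c hc))
      ⟨m, hN hm⟩ (h1 _ hm) hm1
  refine ⟨?_, fun y hy => ?_⟩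
  · have ht : IsMulTorsion (S.G x ⧸ N.subgroupOf (S.G x)) := by
      intro z
      obtain ⟨y, rfl⟩ := QuotientGroup.mk_surjective z
      obtain ⟨n, hn, hy⟩ := key y
      refine isOfFinOrder_iff_pow_eq_one.2 ⟨n, hn, ?_⟩
      rw [← QuotientGroup.mk_pow]
      exact (QuotientGroup.eq_one_iff _).2 hy
    have hfin : Finite (S.G x ⧸ N.subgroupOf (S.G x)) := CommGroup.finite_of_fg_isMulTorsion _ ht
    exact Subgroup.finiteIndex_of_finite_quotient
  · obtain ⟨n, hn, h1⟩ := key ⟨y, hy⟩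
    exact ⟨n, hn, h1⟩

/-- LEMMA X for admissible splittings: at an abelian vertex `x` the edge groups generate a subgroup of
finite index of `G x`. -/
theorem lemX_adm (h : HB 2 b Γ K F T ρ) (hinj : Function.Injective ρ)
    (hnc : ∃ y z : Γ, y * z ≠ z * y) (S : GG Γ) (hS : S.Adm) (x : S.V) (hx : ¬ S.NA x) :
    ((EG S x).subgroupOf (S.G x)).FiniteIndex ∧ ∀ y ∈ S.G x, ∃ n : ℕ, 0 < n ∧ y ^ n ∈ EG S x := by
  have hcomm : ∀ y ∈ S.G x, ∀ z ∈ S.G x, y * z = z * y := by
    by_contra h1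
    exact hx h1
  have hle : EG S x ≤ S.G x := by
    rw [EG, Subgroup.closure_le]
    rintro c ⟨e, ⟨rfl, hc⟩ | ⟨rfl, d, hd, rfl⟩⟩
    · exact S.Ca e hc
    · exact S.Cb e d hd
  -- there is an edge at `x`
  have hedge : ∃ e, S.a e = x ∨ S.b e = x := by
    by_contra hno
    push Not at hno
    have key : ∀ {w g}, S.Pth x w g → w = x ∧ g ∈ S.G x := by
      intro w g hp
      induction hp with
      | one => exact ⟨rfl, one_mem _⟩
      | grp _ hy ih =>
        obtain ⟨h1, h2⟩ := ih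
        subst h1
        exact ⟨rfl, mul_mem h2 hy⟩
      | fwd e _ ih => exact absurd ih.1 (hno e).1
      | bwd e _ ih => exact absurd ih.1 (hno e).2
    obtain ⟨y, z, hyz⟩ := hnc
    exact hyz (hcomm y (key (hS.gen x x y)).2 z (key (hS.gen x x z)).2)
  have hρ : ∀ c : Γ, c ≠ 1 → ρ c ≠ 1 := fun c hc h1 => hc (hinj (by rw [h1, map_one]))
  obtain ⟨m, hm, hm1⟩ : ∃ m ∈ EG S x, ρ m ≠ 1 := by
    obtain ⟨e, he⟩ := hedge
    obtain ⟨⟨c, hc⟩, hc1⟩ := Subgroup.ne_bot_iff_exists_ne_one.1 (hS.ne e)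
    have hc2 : c ≠ 1 := fun h1 => hc1 (Subtype.ext h1)
    rcases he with he | he
    · exact ⟨c, Subgroup.subset_closure ⟨e, Or.inl ⟨he, hc⟩⟩, hρ c hc2⟩
    · refine ⟨(S.s e)⁻¹ * c * S.s e, Subgroup.subset_closure ⟨e, Or.inr ⟨he, c, hc, rfl⟩⟩,
        hρ _ fun h1 => hc2 ?_⟩
      have h2 : c = S.s e * ((S.s e)⁻¹ * c * S.s e) * (S.s e)⁻¹ := by group
      rw [h2, h1]
      group
  exact lemX_sub h S hS.toUP hS.fgV hS.fgE x hcomm _ hle
    (fun e he c hc => Subgroup.subset_closure ⟨e, Or.inl ⟨he, hc⟩⟩)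
    (fun e he c hc => Subgroup.subset_closure ⟨e, Or.inr ⟨he, c, hc, rfl⟩⟩) m hm hm1

end Main

end Pool.Agent.FrX
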