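import Pool.Agent.Lib.MP_305fdd_al.F2.Ch.B4

/-!
# MP_305fdd_al, F_r: the transcendence degree is at most the dimension of a cotangent space

`O` is a finitely generated `𝔽_p`-algebra and a domain, `φ : O → 𝔽_p` a point with kernel `m`,
`m ⊆ (y_1, .., y_e) + m²`.  Then the transcendence degree of `O` is at most `e`.
(The monomials in `y` with exponents less than `p` generate `O` over `O ^ p` near the point.)
-/

set_option autoImplicit false
set_option linter.unusedSectionVars false

namespace Pool.Agent.FrX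

open Pool.Agent.F2Ch

section local_

variable {p : ℕ} [hp : Fact p.Prime] {O : Type} [CommRing O] [CharP O p]

/-- the ring of `p`-th powers -/
abbrev Op (p : ℕ) [Fact p.Prime] (O : Type) [CommRing O] [CharP O p] : Subring O :=
  (frobenius O p).range

theorem op_mem (c : O) : c ^ p ∈ Op p O := ⟨c, by simp [frobenius_def]⟩

/-- monomials with exponents less than `p` -/
def mo {e : ℕ} (y : Fin e → O) (a : Fin e → Fin p) : O := ∏ i, y i ^ (a i : ℕ)

/-- the ideal of a point in the ring of `p`-th powers -/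
def Ip (φ : O →+* ZMod p) : Ideal (Op p O) := RingHom.ker (φ.comp (Op p O).subtype)

theorem mem_Ip (φ : O →+* ZMod p) (c : Op p O) : c ∈ Ip φ ↔ φ (c : O) = 0 := by
  rw [Ip, RingHom.mem_ker]; rfl

/-- the span of the monomials -/
def Nn {e : ℕ} (y : Fin e → O) : Submodule (Op p O) O :=
  Submodule.span (Op p O) (Set.range (mo (p := p) y))

/-- the span of the monomials and of the `p`-th powers of the ideal -/
def Pn {e : ℕ} (y : Fin e → O) (φ : O →+* ZMod p) : Submodule (Op p O) O :=
  Nn y ⊔ (Ip φ) • (⊤ : Submodule (Op p O) O)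

theorem ideal_mem {e : ℕ} (y : Fin e → O) (φ : O →+* ZMod p) (c x : O) (hc : φ c = 0) :
    c ^ p * x ∈ Pn y φ := by
  have h1 : (⟨c ^ p, op_mem c⟩ : Op p O) ∈ Ip φ := by
    rw [mem_Ip]
    show φ (c ^ p) = 0
    rw [map_pow, hc, zero_pow hp.out.ne_zero]
  have h2 : c ^ p * x = (⟨c ^ p, op_mem c⟩ : Op p O) • x := rfl
  rw [h2]
  exact Submodule.mem_sup_right (Submodule.smul_mem_smul h1 Submodule.mem_top)

theorem y_mul_mem {e : ℕ} (y : Fin e → O) (φ : O →+* ZMod p) (hy : ∀ i, φ (y i) = 0) (i : Fin e)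
    (z : O) (hz : z ∈ Pn y φ) : y i * z ∈ Pn y φ := by
  classical
  have hp1 := hp.out.one_lt
  have h1 : ∀ z ∈ Nn (p := p) y, y i * z ∈ Pn y φ := by
    intro z hz
    rw [Nn] at hz
    induction hz using Submodule.span_induction with
    | mem x hx =>
      obtain ⟨a, rfl⟩ := hx
      by_cases ha : (a i : ℕ) + 1 < p
      · have h2 : y i * mo y a = mo y (Function.update a i ⟨(a i : ℕ) + 1, ha⟩) := by
          rw [mo, mo, ← Finset.mul_prod_erase Finset.univ _ (Finset.mem_univ i),
            ← Finset.mul_prod_erase Finset.univ (fun j => y j ^ (Function.update a i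
              ⟨(a i : ℕ) + 1, ha⟩ j : ℕ)) (Finset.mem_univ i), ← mul_assoc, ← pow_succ']
          congr 1
          · rw [Function.update_self]
          · refine Finset.prod_congr rfl fun j hj => ?_
            rw [Function.update_of_ne (Finset.ne_of_mem_erase hj)]
        rw [h2]
        exact Submodule.mem_sup_left (Submodule.subset_span ⟨_, rfl⟩)
      · have h3 : (a i : ℕ) + 1 = p := by have := (a i).2; omega
        have h2 : y i * mo y a = y i ^ p * ∏ j ∈ Finset.univ.erase i, y j ^ (a j : ℕ) := by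
          rw [mo, ← Finset.mul_prod_erase Finset.univ _ (Finset.mem_univ i), ← mul_assoc,
            ← pow_succ', h3]
        rw [h2]
        exact ideal_mem y φ _ _ (hy i)
    | zero => rw [mul_zero]; exact zero_mem _
    | add x x' _ _ hx hx' => rw [mul_add]; exact add_mem hx hx'
    | smul c x _ hx =>
      rw [mul_smul_comm]
      exact Submodule.smul_mem _ _ hx
  rw [Pn, Submodule.mem_sup] at hz
  obtain ⟨u, hu, v, hv, rfl⟩ := hz
  rw [mul_add]
  refine add_mem (h1 u hu) ?_
  refine Submodule.mem_sup_right ?_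
  refine Submodule.smul_induction_on hv ?_ ?_
  · intro r hr n _
    rw [mul_smul_comm]
    exact Submodule.smul_mem_smul hr Submodule.mem_top
  · intro x x' hx hx'
    rw [mul_add]
    exact add_mem hx hx'

theorem closure_mem {e : ℕ} (y : Fin e → O) (φ : O →+* ZMod p) (hy : ∀ i, φ (y i) = 0) (z : O)
    (hz : z ∈ Subring.closure (Set.range y)) : z ∈ Pn y φ := by
  have hp1 := hp.out.one_lt
  have h1 : ∀ w ∈ Pn (p := p) y φ, z * w ∈ Pn y φ := by
    induction hz using Subring.closure_induction with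
    | mem x hx =>
      obtain ⟨i, rfl⟩ := hx
      exact y_mul_mem y φ hy i
    | zero => intro w _; rw [zero_mul]; exact zero_mem _
    | one => intro w hw; rwa [one_mul]
    | add x x' _ _ hx hx' => intro w hw; rw [add_mul]; exact add_mem (hx w hw) (hx' w hw)
    | neg x _ hx => intro w hw; rw [neg_mul]; exact neg_mem (hx w hw)
    | mul x x' _ _ hx hx' => intro w hw; rw [mul_assoc]; exact hx _ (hx' w hw)
  have h2 : (1 : O) ∈ Pn (p := p) y φ := by
    refine Submodule.mem_sup_left (Submodule.subset_span ⟨fun _ => ⟨0, by omega⟩, ?_⟩)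
    simp [mo]
  have := h1 1 h2
  rwa [mul_one] at this

/-- powers of the ideal -/
theorem pow_step {e : ℕ} (y : Fin e → O) (φ : O →+* ZMod p) (hy : ∀ i, φ (y i) = 0)
    (hm : RingHom.ker φ ≤ Ideal.span (Set.range y) ⊔ (RingHom.ker φ) ^ 2) (k : ℕ) :
    ∀ z ∈ (RingHom.ker φ) ^ k, ∃ a ∈ Subring.closure (Set.range y),
      z - a ∈ (RingHom.ker φ) ^ (k + 1) := by
  classical
  have hlift : ∀ c : O, ∃ n : ℤ, c - (n : O) ∈ RingHom.ker φ := by
    intro c
    refine ⟨((φ c).val : ℤ), ?_⟩
    rw [RingHom.mem_ker, map_sub, map_intCast, Int.cast_natCast, ZMod.natCast_zmod_val, sub_self]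
  have hym : Ideal.span (Set.range y) ≤ RingHom.ker φ := by
    rw [Ideal.span_le]
    rintro _ ⟨i, rfl⟩
    exact hy i
  -- degree one
  have h1 : ∀ c ∈ RingHom.ker φ, ∃ a ∈ Subring.closure (Set.range y),
      c - a ∈ (RingHom.ker φ) ^ 2 := by
    intro c hc
    obtain ⟨u, hu, w, hw, rfl⟩ := Submodule.mem_sup.1 (hm hc)
    have hu' : ∃ a ∈ Subring.closure (Set.range y), u - a ∈ (RingHom.ker φ) ^ 2 := by
      refine Submodule.span_induction (p := fun u _ => ∃ a ∈ Subring.closure (Set.range y),
        u - a ∈ (RingHom.ker φ) ^ 2) ?_ ?_ ?_ ?_ hu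
      · rintro _ ⟨i, rfl⟩
        exact ⟨y i, Subring.subset_closure ⟨i, rfl⟩, by rw [sub_self]; exact zero_mem _⟩
      · exact ⟨0, zero_mem _, by rw [sub_self]; exact zero_mem _⟩
      · rintro u u' _ _ ⟨a, ha, h⟩ ⟨a', ha', h'⟩
        refine ⟨a + a', add_mem ha ha', ?_⟩
        have : u + u' - (a + a') = (u - a) + (u' - a') := by ring
        rw [this]
        exact add_mem h h'
      · rintro c u hu ⟨a, ha, h⟩
        obtain ⟨n, hn⟩ := hlift c
        refine ⟨(n : O) * a, mul_mem (intCast_mem _ n) ha, ?_⟩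
        have hu0 : u ∈ RingHom.ker φ := hym hu
        have : c • u - (n : O) * a = (c - n) * u + n * (u - a) := by
          rw [smul_eq_mul]; ring
        rw [this]
        refine add_mem ?_ (Ideal.mul_mem_left _ _ h)
        rw [pow_two]
        exact Ideal.mul_mem_mul hn hu0
    obtain ⟨a, ha, h⟩ := hu'
    refine ⟨a, ha, ?_⟩
    have : u + w - a = (u - a) + w := by ring
    rw [this]
    exact add_mem h hw
  induction k with
  | zero =>
    intro z _
    obtain ⟨n, hn⟩ := hlift z
    exact ⟨n, intCast_mem _ n, by rw [zero_add, pow_one]; exact hn⟩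
  | succ k ih =>
    intro z hz
    rw [pow_succ', ] at hz
    refine Submodule.mul_induction_on hz ?_ ?_
    · intro c hc d hd
      obtain ⟨a, ha, h⟩ := h1 c hc
      obtain ⟨b, hb, h'⟩ := ih d hd
      refine ⟨a * b, mul_mem ha hb, ?_⟩
      have ha0 : a ∈ RingHom.ker φ := by
        have : a = c - (c - a) := by ring
        rw [this]
        exact sub_mem hc (Ideal.pow_le_self two_ne_zero h)
      have : c * d - a * b = (c - a) * d + a * (d - b) := by ring
      rw [this]
      refine add_mem ?_ ?_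
      · have : (RingHom.ker φ) ^ (k + 1 + 1) = (RingHom.ker φ) ^ 2 * (RingHom.ker φ) ^ k := by
          rw [← pow_add]; congr 1; ring
        rw [this]
        exact Ideal.mul_mem_mul h hd
      · rw [pow_succ' _ (k + 1)]
        exact Ideal.mul_mem_mul ha0 h'
    · rintro z z' ⟨a, ha, h⟩ ⟨a', ha', h'⟩
      refine ⟨a + a', add_mem ha ha', ?_⟩
      have : z + z' - (a + a') = (z - a) + (z' - a') := by ring
      rw [this]
      exact add_mem h h'

theorem pow_all {e : ℕ} (y : Fin e → O) (φ : O →+* ZMod p) (hy : ∀ i, φ (y i) = 0)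
    (hm : RingHom.ker φ ≤ Ideal.span (Set.range y) ⊔ (RingHom.ker φ) ^ 2) (k : ℕ) (z : O) :
    ∃ a ∈ Subring.closure (Set.range y), z - a ∈ (RingHom.ker φ) ^ k := by
  induction k with
  | zero => exact ⟨0, zero_mem _, by rw [pow_zero, Ideal.one_eq_top]; exact Submodule.mem_top⟩
  | succ k ih =>
    obtain ⟨a, ha, h⟩ := ih
    obtain ⟨b, hb, h'⟩ := pow_step y φ hy hm k _ h
    refine ⟨a + b, add_mem ha hb, ?_⟩
    rw [← sub_sub]
    exact h'

theorem Pn_eq_top {e : ℕ} (y : Fin e → O) (φ : O →+* ZMod p) (hy : ∀ i, φ (y i) = 0)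
    (hm : RingHom.ker φ ≤ Ideal.span (Set.range y) ⊔ (RingHom.ker φ) ^ 2)
    [IsNoetherianRing O] : Pn y φ = ⊤ := by
  rw [eq_top_iff]
  intro z _
  have h1 : RingHom.ker φ ≤ (Ideal.span {x : O | ∃ c, φ c = 0 ∧ x = c ^ p}).radical := by
    intro c hc
    exact ⟨p, Ideal.subset_span ⟨c, hc, rfl⟩⟩
  obtain ⟨k, hk⟩ := Ideal.exists_pow_le_of_le_radical_of_fg h1
    (IsNoetherian.noetherian (RingHom.ker φ))
  obtain ⟨a, ha, h⟩ := pow_all y φ hy hm k z
  have h2 := hk h
  have h3 : ∀ w ∈ Ideal.span {x : O | ∃ c, φ c = 0 ∧ x = c ^ p}, ∀ r : O,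
      r * w ∈ Pn (p := p) y φ := by
    intro w hw
    refine Submodule.span_induction (p := fun w _ => ∀ r : O, r * w ∈ Pn (p := p) y φ)
      ?_ ?_ ?_ ?_ hw
    · rintro _ ⟨c, hc, rfl⟩ r
      rw [mul_comm]
      exact ideal_mem y φ c r hc
    · intro r; rw [mul_zero]; exact zero_mem _
    · intro x x' _ _ hx hx' r; rw [mul_add]; exact add_mem (hx r) (hx' r)
    · intro c x _ hx r
      rw [smul_eq_mul, ← mul_assoc]
      exact hx _
  have h4 := add_mem (closure_mem y φ hy a ha) (h3 _ h2 1)
  rwa [one_mul, add_sub_cancel] at h4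

theorem finite_op [Algebra.FiniteType ℤ O] : Module.Finite (Op p O) O := by
  have h1 : Algebra.IsIntegral (Op p O) O := by
    refine ⟨fun c => ⟨Polynomial.X ^ p - Polynomial.C (⟨c ^ p, op_mem c⟩ : Op p O), ?_, ?_⟩⟩
    · exact Polynomial.monic_X_pow_sub_C _ hp.out.ne_zero
    · simp only [Polynomial.eval₂_sub, Polynomial.eval₂_pow, Polynomial.eval₂_X,
        Polynomial.eval₂_C]
      exact sub_self _
  have h2 : Algebra.FiniteType (Op p O) O :=
    Algebra.FiniteType.of_restrictScalars_finiteType ℤ (Op p O) O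
  exact Algebra.IsIntegral.finite

open Pointwise in
/-- near the point the monomials generate -/
theorem exists_mult {e : ℕ} (y : Fin e → O) (φ : O →+* ZMod p) (hy : ∀ i, φ (y i) = 0)
    (hm : RingHom.ker φ ≤ Ideal.span (Set.range y) ⊔ (RingHom.ker φ) ^ 2)
    [IsNoetherianRing O] [Algebra.FiniteType ℤ O] :
    ∃ s : O, s ≠ 0 ∧ ∀ x : O, s ^ p * x ∈ Nn (p := p) y := by
  have := finite_op (p := p) (O := O)
  obtain ⟨r, hr, hr'⟩ := Submodule.exists_sub_one_mem_and_smul_le_of_fg_of_le_sup
    (I := Ip φ) (N := Nn y) (N' := (⊤ : Submodule (Op p O) O)) (P := ⊤)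
    Module.Finite.fg_top le_rfl (by
      have := Pn_eq_top y φ hy hm
      rw [Pn] at this
      rw [this])
  obtain ⟨s, hs⟩ := r.2
  rw [frobenius_def] at hs
  refine ⟨s, ?_, fun x => ?_⟩
  · rintro rfl
    rw [mem_Ip] at hr
    rw [zero_pow hp.out.ne_zero] at hs
    have h1 : ((r - 1 : Op p O) : O) = -1 := by
      rw [AddSubgroupClass.coe_sub, ← hs]
      simp
    rw [h1, map_neg, map_one] at hr
    exact one_ne_zero (neg_eq_zero.1 hr)
  · have h1 : r • x ∈ r • (⊤ : Submodule (Op p O) O) := Submodule.smul_mem_pointwise_smul x r ⊤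
      Submodule.mem_top
    have h2 := hr' h1
    have h3 : r • x = s ^ p * x := by rw [hs]; rfl
    rwa [h3] at h2

end local_

/-- THE DIMENSION LEMMA, degree form. -/
theorem finrank_le {p : ℕ} [hp : Fact p.Prime] {O K : Type} [CommRing O] [CharP O p] [Field K]
    [CharP K p] [Algebra O K] [IsFractionRing O K] [IsNoetherianRing O] [Algebra.FiniteType ℤ O]
    {e : ℕ} (y : Fin e → O) (φ : O →+* ZMod p) (hy : ∀ i, φ (y i) = 0)
    (hm : RingHom.ker φ ≤ Ideal.span (Set.range y) ⊔ (RingHom.ker φ) ^ 2) :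
    Module.finrank (frobenius K p).fieldRange K ≤ p ^ e := by
  classical
  obtain ⟨s, hs, hs'⟩ := exists_mult y φ hy hm
  have : Nontrivial O := ⟨⟨s, 0, hs⟩⟩
  have hinj : Function.Injective (algebraMap O K) := IsFractionRing.injective O K
  let w : (Fin e → Fin p) → K := fun a => algebraMap O K (mo y a)
  have h1 : ∀ z ∈ Nn (p := p) y, algebraMap O K z ∈
      Submodule.span (frobenius K p).fieldRange (Set.range w) := by
    intro z hz
    rw [Nn] at hz
    induction hz using Submodule.span_induction with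
    | mem x hx =>
      obtain ⟨a, rfl⟩ := hx
      exact Submodule.subset_span ⟨a, rfl⟩
    | zero => rw [map_zero]; exact zero_mem _
    | add x x' _ _ hx hx' => rw [map_add]; exact add_mem hx hx'
    | smul c x _ hx =>
      obtain ⟨c, c0, rfl⟩ := c
      have h2 : algebraMap O K ((⟨frobenius O p c0, ⟨c0, rfl⟩⟩ : Op p O) • x) =
          (⟨(algebraMap O K c0) ^ p, b4_mem _⟩ : (frobenius K p).fieldRange) •
            algebraMap O K x := by
        show algebraMap O K (frobenius O p c0 * x) = (algebraMap O K c0) ^ p * algebraMap O K x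
        rw [map_mul, frobenius_def, map_pow]
      exact h2 ▸ Submodule.smul_mem _ _ hx
  have h2 : Submodule.span (frobenius K p).fieldRange (Set.range w) = ⊤ := by
    rw [eq_top_iff]
    intro x _
    obtain ⟨u, v, hv, rfl⟩ := IsFractionRing.div_surjective (A := O) x
    have hv0 : algebraMap O K v ≠ 0 := by
      intro h
      exact nonZeroDivisors.ne_zero hv (hinj (by rw [h, map_zero]))
    have hs0 : algebraMap O K s ≠ 0 := by
      intro h
      exact hs (hinj (by rw [h, map_zero]))
    have h3 := h1 _ (hs' (u * v ^ (p - 1)))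
    have h4 : algebraMap O K u / algebraMap O K v =
        (⟨((algebraMap O K s * algebraMap O K v)⁻¹) ^ p, b4_mem _⟩ :
          (frobenius K p).fieldRange) • algebraMap O K (s ^ p * (u * v ^ (p - 1))) := by
      show _ = ((algebraMap O K s * algebraMap O K v)⁻¹) ^ p *
        algebraMap O K (s ^ p * (u * v ^ (p - 1)))
      rw [map_mul, map_mul, map_pow, map_pow]
      have h5 : algebraMap O K v ^ p = algebraMap O K v * algebraMap O K v ^ (p - 1) := by
        rw [← pow_succ', Nat.sub_add_cancel hp.out.one_lt.le]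
      rw [inv_pow, mul_pow, h5]
      field_simp
    rw [h4]
    exact Submodule.smul_mem _ _ h3
  have h3 := finrank_le_of_span_eq_top (R := (frobenius K p).fieldRange) h2
  simpa using h3

end Pool.Agent.FrX

namespace Pool.Agent.FrX

open Pool.Agent.F2Ch

/-- THE DIMENSION LEMMA: the transcendence degree is at most the number of generators of the
cotangent space at a rational point. -/
theorem trdeg_le {p : ℕ} [hp : Fact p.Prime] {O : Type} [CommRing O] [IsDomain O]
    [Algebra (ZMod p) O] [Algebra.FiniteType (ZMod p) O] {e : ℕ} (y : Fin e → O)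
    (φ : O →+* ZMod p) (hy : ∀ i, φ (y i) = 0)
    (hm : RingHom.ker φ ≤ Ideal.span (Set.range y) ⊔ (RingHom.ker φ) ^ 2) :
    Algebra.trdeg (ZMod p) O ≤ (e : Cardinal) := by
  classical
  have : CharP O p := charP_of_injective_algebraMap (algebraMap (ZMod p) O).injective p
  have : IsNoetherianRing O := Algebra.FiniteType.isNoetherianRing (ZMod p) O
  have : Algebra.FiniteType ℤ (ZMod p) := by
    refine Algebra.FiniteType.of_surjective (R := ℤ) (A := ℤ) (B := ZMod p)
      (Algebra.ofId ℤ (ZMod p)) ?_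
    exact ZMod.intCast_surjective
  have : Algebra.FiniteType ℤ O := Algebra.FiniteType.trans (R := ℤ) (S := ZMod p) (A := O)
    inferInstance inferInstance
  let K := FractionRing O
  have : CharP K p := charP_of_injective_algebraMap (IsFractionRing.injective O K) p
  have h1 := finrank_le (K := K) y φ hy hm
  obtain ⟨n, f, hf⟩ := Algebra.FiniteType.iff_quotient_mvPolynomial''.1
    (inferInstance : Algebra.FiniteType (ZMod p) O)
  have h2 : ∀ q : MvPolynomial (Fin n) (ZMod p),
      MvPolynomial.aeval (fun i => algebraMap O K (f (MvPolynomial.X i))) q =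
        algebraMap O K (f q) := by
    intro q
    have : (MvPolynomial.aeval (fun i => algebraMap O K (f (MvPolynomial.X i))) :
        MvPolynomial (Fin n) (ZMod p) →ₐ[ZMod p] K) = (IsScalarTower.toAlgHom (ZMod p) O K).comp f := by
      ext i
      simp
    rw [this]
    rfl
  have h3 : FracGen (ZMod p) (fun i => algebraMap O K (f (MvPolynomial.X i))) := by
    intro x
    obtain ⟨u, v, hv, rfl⟩ := IsFractionRing.div_surjective (A := O) x
    obtain ⟨a, rfl⟩ := hf u
    obtain ⟨b, rfl⟩ := hf v
    have hv0 : algebraMap O K (f b) ≠ 0 := by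
      intro h
      exact nonZeroDivisors.ne_zero hv (IsFractionRing.injective O K (by rw [h, map_zero]))
    refine ⟨a, b, by rw [h2]; exact hv0, ?_⟩
    rw [h2, h2, div_mul_cancel₀ _ hv0]
  obtain ⟨d, b, ρ, h4, h5⟩ := p_B4 p (ZMod p) K n _ h3
  rw [b4_finrank h5, Fintype.card_fin] at h1
  have h6 : d ≤ e := (Nat.pow_le_pow_iff_right hp.out.one_lt).1 h1
  have h7 := trdeg_add_eq (ZMod p) O (A := K)
  have : Algebra.IsAlgebraic O K := IsLocalization.isAlgebraic _ (nonZeroDivisors O)
  have h8 : Algebra.trdeg O K = 0 := trdeg_eq_zero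
  rw [h8, add_zero, h4] at h7
  rw [h7]
  exact_mod_cast h6

end Pool.Agent.FrX
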