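import Pool.Agent.Lib.MP_305fdd_al.Fr.X.Core

/-!
# MP_305fdd_al, F_r: Lemma X for splittings in gauge form

`Γ` with finitely many vertex groups `gv v`, cylinder groups `mc c`, elements `s e` and edge groups
`ee e`, `ee e ≤ gv (vt e)`, `(s e)⁻¹ (ee e) (s e) ≤ mc (ct e)`.  Hypotheses: existence part of the
universal property in gauge form for the ring `ZMod 2`, and path generation.
-/

set_option autoImplicit false
set_option linter.unusedSectionVars false
set_option linter.unusedVariables false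

namespace Pool.Agent.FrX

open Pool.Agent.FrN

/-- the group of the unipotent upper triangular matrices over the field with two elements -/
def uni : Multiplicative (ZMod 2) →* Matrix.SpecialLinearGroup (Fin 2) (ZMod 2) where
  toFun c := ⟨!![1, Multiplicative.toAdd c; 0, 1], by simp [Matrix.det_fin_two]⟩
  map_one' := by
    apply Subtype.ext
    ext i j
    fin_cases i <;> fin_cases j <;> rfl
  map_mul' := by
    intro a b
    apply Subtype.ext
    show !![1, Multiplicative.toAdd (a * b); 0, 1] =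
      !![1, Multiplicative.toAdd a; 0, 1] * !![1, Multiplicative.toAdd b; 0, 1]
    rw [Matrix.mul_fin_two, toAdd_mul]
    congr 1
    simp [add_comm]

theorem uni_inj : Function.Injective uni := by
  intro a b h
  have h1 := congrFun (congrFun (congrArg Subtype.val h) 0) 1
  exact h1

section Pa

variable {Γ V C E : Type} [Group Γ]

/-- values of paths of the graph of groups -/
inductive Pa (gv : V → Subgroup Γ) (mc : C → Subgroup Γ) (vt : E → V) (ct : E → C) (s : E → Γ) :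
    V ⊕ C → V ⊕ C → Γ → Prop
  | vert (v : V) (x : Γ) (hx : x ∈ gv v) : Pa gv mc vt ct s (Sum.inl v) (Sum.inl v) x
  | cyl (c : C) (m : Γ) (hm : m ∈ mc c) : Pa gv mc vt ct s (Sum.inr c) (Sum.inr c) m
  | edge (e : E) : Pa gv mc vt ct s (Sum.inl (vt e)) (Sum.inr (ct e)) (s e)
  | comp {a b d : V ⊕ C} {g h : Γ} (hg : Pa gv mc vt ct s a b g) (hh : Pa gv mc vt ct s b d h) :
      Pa gv mc vt ct s a d (g * h)
  | inv {a b : V ⊕ C} {g : Γ} (hg : Pa gv mc vt ct s a b g) : Pa gv mc vt ct s b a g⁻¹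

variable {gv : V → Subgroup Γ} {mc : C → Subgroup Γ} {vt : E → V} {ct : E → C} {s : E → Γ}

theorem Pa.one (a : V ⊕ C) : Pa gv mc vt ct s a a 1 := by
  cases a with
  | inl v => exact Pa.vert v 1 (one_mem _)
  | inr c => exact Pa.cyl c 1 (one_mem _)

/-- values of the closed paths at `a` -/
def Loop (gv : V → Subgroup Γ) (mc : C → Subgroup Γ) (vt : E → V) (ct : E → C) (s : E → Γ)
    (a : V ⊕ C) : Subgroup Γ where
  carrier := {g | Pa gv mc vt ct s a a g}
  one_mem' := Pa.one a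
  mul_mem' := fun h h' => h.comp h'
  inv_mem' := fun h => h.inv

theorem Pa.conj {a0 a b : V ⊕ C} {p q γ : Γ} (hp : Pa gv mc vt ct s a0 a p)
    (hq : Pa gv mc vt ct s a0 b q) (h : Pa gv mc vt ct s a b γ) :
    p * γ * q⁻¹ ∈ Loop gv mc vt ct s a0 := (hp.comp h).comp hq.inv

theorem conj_mem {H : Subgroup Γ} {p q : Γ} {a b : Γ} (h1 : p * a * q⁻¹ ∈ H)
    {r : Γ} (h2 : q * b * r⁻¹ ∈ H) : p * (a * b) * r⁻¹ ∈ H := by
  have : p * (a * b) * r⁻¹ = (p * a * q⁻¹) * (q * b * r⁻¹) := by group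
  rw [this]
  exact mul_mem h1 h2

/-- the group of the closed paths is generated by the obvious elements -/
theorem loop_gen {a0 : V ⊕ C} (p : V ⊕ C → Γ) (H : Subgroup Γ)
    (h0 : p a0 ∈ H)
    (hv : ∀ v, ∀ x ∈ gv v, p (Sum.inl v) * x * (p (Sum.inl v))⁻¹ ∈ H)
    (hc : ∀ c, ∀ x ∈ mc c, p (Sum.inr c) * x * (p (Sum.inr c))⁻¹ ∈ H)
    (he : ∀ e, p (Sum.inl (vt e)) * s e * (p (Sum.inr (ct e)))⁻¹ ∈ H) :
    Loop gv mc vt ct s a0 ≤ H := by
  have key : ∀ {a b : V ⊕ C} {γ : Γ}, Pa gv mc vt ct s a b γ → p a * γ * (p b)⁻¹ ∈ H := by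
    intro a b γ h
    induction h with
    | vert v x hx => exact hv v x hx
    | cyl c m hm => exact hc c m hm
    | edge e => exact he e
    | comp _ _ h1 h2 => exact conj_mem h1 h2
    | @inv a b g _ h1 =>
      have : p b * g⁻¹ * (p a)⁻¹ = (p a * g * (p b)⁻¹)⁻¹ := by group
      rw [this]
      exact inv_mem h1
  intro γ hγ
  have h1 := key (show Pa gv mc vt ct s a0 a0 γ from hγ)
  have : γ = (p a0)⁻¹ * (p a0 * γ * (p a0)⁻¹) * p a0 := by group
  rw [this]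
  exact mul_mem (mul_mem (inv_mem h0) h1) h0

theorem loop_fg [Finite V] [Finite C] [Finite E] {a0 : V ⊕ C} (p : V ⊕ C → Γ)
    (hp : ∀ a, Pa gv mc vt ct s a0 a (p a)) (hgv : ∀ v, (gv v).FG) (hmc : ∀ c, (mc c).FG) :
    (Loop gv mc vt ct s a0).FG := by
  rw [Subgroup.fg_iff]
  have hgv' : ∀ v, ∃ S : Set Γ, Subgroup.closure S = gv v ∧ S.Finite := fun v =>
    (Subgroup.fg_iff _).1 (hgv v)
  have hmc' : ∀ c, ∃ S : Set Γ, Subgroup.closure S = mc c ∧ S.Finite := fun c =>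
    (Subgroup.fg_iff _).1 (hmc c)
  choose Sv hSv hSvf using hgv'
  choose Sc hSc hScf using hmc'
  let X : Set Γ := {p a0} ∪ (⋃ v, (fun x => p (Sum.inl v) * x * (p (Sum.inl v))⁻¹) '' Sv v) ∪
    (⋃ c, (fun x => p (Sum.inr c) * x * (p (Sum.inr c))⁻¹) '' Sc c) ∪
    Set.range (fun e => p (Sum.inl (vt e)) * s e * (p (Sum.inr (ct e)))⁻¹)
  have hXf : X.Finite := by
    refine Set.Finite.union (Set.Finite.union (Set.Finite.union (Set.finite_singleton _) ?_) ?_)
      (Set.finite_range _)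
    · exact Set.finite_iUnion fun v => (hSvf v).image _
    · exact Set.finite_iUnion fun c => (hScf c).image _
  have hconj : ∀ (H : Subgroup Γ) (S : Set Γ) (q : Γ), (∀ x ∈ S, q * x * q⁻¹ ∈ H) →
      ∀ x ∈ Subgroup.closure S, q * x * q⁻¹ ∈ H := by
    intro H S q h x hx
    have h1 : Subgroup.closure S ≤ H.comap (MulAut.conj q).toMonoidHom := by
      rw [Subgroup.closure_le]
      intro y hy
      exact h y hy
    exact h1 hx
  refine ⟨X, le_antisymm ?_ ?_, hXf⟩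
  · rw [Subgroup.closure_le]
    rintro x (((hx | hx) | hx) | hx)
    · rw [Set.mem_singleton_iff.1 hx]
      exact hp a0
    · obtain ⟨v, y, hy, rfl⟩ := Set.mem_iUnion.1 hx
      refine (hp _).conj (hp _) (Pa.vert v y ?_)
      rw [← hSv v]
      exact Subgroup.subset_closure hy
    · obtain ⟨c, y, hy, rfl⟩ := Set.mem_iUnion.1 hx
      refine (hp _).conj (hp _) (Pa.cyl c y ?_)
      rw [← hSc c]
      exact Subgroup.subset_closure hy
    · obtain ⟨e, rfl⟩ := hx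
      exact (hp _).conj (hp _) (Pa.edge e)
  · refine loop_gen p _ ?_ ?_ ?_ ?_
    · exact Subgroup.subset_closure (Or.inl (Or.inl (Or.inl rfl)))
    · intro v x hx
      rw [← hSv v] at hx
      refine hconj _ _ _ ?_ x hx
      intro y hy
      exact Subgroup.subset_closure (Or.inl (Or.inl (Or.inr (Set.mem_iUnion.2 ⟨v, y, hy, rfl⟩))))
    · intro c x hx
      rw [← hSc c] at hx
      refine hconj _ _ _ ?_ x hx
      intro y hy
      exact Subgroup.subset_closure (Or.inl (Or.inr (Set.mem_iUnion.2 ⟨c, y, hy, rfl⟩)))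
    · intro e
      exact Subgroup.subset_closure (Or.inr ⟨e, rfl⟩)

end Pa

section Frame

variable {Γ V C E : Type} [Group Γ]

/-- existence part of the universal property, for the field with two elements, in gauge form -/
def GU2 (gv : V → Subgroup Γ) (mc : C → Subgroup Γ) (vt : E → V) (ct : E → C) (s : E → Γ)
    (ee : E → Subgroup Γ) : Prop :=
  ∀ (rv : ∀ v, gv v →* Matrix.SpecialLinearGroup (Fin 2) (ZMod 2))
    (rc : ∀ c, mc c →* Matrix.SpecialLinearGroup (Fin 2) (ZMod 2))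
    (σ : E → Matrix.SpecialLinearGroup (Fin 2) (ZMod 2)),
    (∀ e x, x ∈ ee e → ∀ (h1 : x ∈ gv (vt e)) (h2 : (s e)⁻¹ * x * s e ∈ mc (ct e)),
      rv (vt e) ⟨x, h1⟩ = σ e * rc (ct e) ⟨(s e)⁻¹ * x * s e, h2⟩ * (σ e)⁻¹) →
    ∃ (r : Γ →* Matrix.SpecialLinearGroup (Fin 2) (ZMod 2))
      (α : V → Matrix.SpecialLinearGroup (Fin 2) (ZMod 2))
      (β : C → Matrix.SpecialLinearGroup (Fin 2) (ZMod 2)),
      (∀ v (x : gv v), rv v x = α v * r x * (α v)⁻¹) ∧
      (∀ c (x : mc c), rc c x = β c * r x * (β c)⁻¹) ∧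
      ∀ e, σ e = α (vt e) * r (s e) * (β (ct e))⁻¹

/-- path generation: every element of `Γ` is the value of a path from `v0` to any other vertex -/
def PGen (gv : V → Subgroup Γ) (mc : C → Subgroup Γ) (vt : E → V) (ct : E → C) (s : E → Γ)
    (v0 : V) : Prop :=
  ∀ (P : V → Set Γ) (Q : C → Set Γ), 1 ∈ P v0 → (∀ v, ∀ g ∈ P v, ∀ x ∈ gv v, g * x ∈ P v) →
    (∀ c, ∀ g ∈ Q c, ∀ m ∈ mc c, g * m ∈ Q c) → (∀ e, ∀ g ∈ P (vt e), g * s e ∈ Q (ct e)) →
    (∀ e, ∀ g ∈ Q (ct e), g * (s e)⁻¹ ∈ P (vt e)) →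
    (∀ v g, g ∈ P v) ∧ ∀ c g, g ∈ Q c

variable {gv : V → Subgroup Γ} {mc : C → Subgroup Γ} {vt : E → V} {ct : E → C} {s : E → Γ}
  {ee : E → Subgroup Γ} {v0 : V}

/-- all vertices are reachable, with any choice of subgroups of the vertex and cylinder groups -/
theorem PGen.conn (h : PGen gv mc vt ct s v0) (gv' : V → Subgroup Γ) (mc' : C → Subgroup Γ) :
    ∀ a, ∃ g, Pa gv' mc' vt ct s (Sum.inl v0) a g := by
  have h1 := h (fun v => {_g | ∃ g, Pa gv' mc' vt ct s (Sum.inl v0) (Sum.inl v) g})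
    (fun c => {_g | ∃ g, Pa gv' mc' vt ct s (Sum.inl v0) (Sum.inr c) g}) ⟨1, Pa.one _⟩
    (fun v g hg x _ => hg) (fun c g hg x _ => hg)
    (fun e g ⟨k, hk⟩ => ⟨_, hk.comp (Pa.edge e)⟩)
    (fun e g ⟨k, hk⟩ => ⟨_, hk.comp (Pa.edge e).inv⟩)
  rintro (v | c)
  · exact h1.1 v 1
  · exact h1.2 c 1

theorem ext_rv {mc' : C → Subgroup Γ} {L : Subgroup Γ}
    (hL : L = Loop gv mc' vt ct s (Sum.inl v0)) (p : V ⊕ C → Γ)
    (hp : ∀ a, Pa gv mc' vt ct s (Sum.inl v0) a (p a)) (f : L →* Multiplicative (ZMod 2)) (v : V) :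
    ∃ rv : gv v →* Multiplicative (ZMod 2), ∀ (x : gv v)
      (h : p (Sum.inl v) * (x : Γ) * (p (Sum.inl v))⁻¹ ∈ L), rv x = f ⟨_, h⟩ := by
  subst hL
  refine ⟨f.comp
    { toFun := fun x => ⟨p (Sum.inl v) * (x : Γ) * (p (Sum.inl v))⁻¹,
        (hp _).conj (hp _) (Pa.vert v (x : Γ) x.2)⟩
      map_one' := ?_
      map_mul' := ?_ }, ?_⟩
  · apply Subtype.ext
    show p (Sum.inl v) * ((1 : gv v) : Γ) * (p (Sum.inl v))⁻¹ = 1
    simp
  · intro x y
    apply Subtype.ext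
    show p (Sum.inl v) * ((x * y : gv v) : Γ) * (p (Sum.inl v))⁻¹ =
      (p (Sum.inl v) * x * (p (Sum.inl v))⁻¹) * (p (Sum.inl v) * y * (p (Sum.inl v))⁻¹)
    rw [Subgroup.coe_mul]
    group
  · intro x h
    rfl

theorem ext_rc {mc' : C → Subgroup Γ} {L : Subgroup Γ}
    (hL : L = Loop gv mc' vt ct s (Sum.inl v0)) (p : V ⊕ C → Γ)
    (hp : ∀ a, Pa gv mc' vt ct s (Sum.inl v0) a (p a)) (f : L →* Multiplicative (ZMod 2)) (c : C)
    (k : mc c →* Multiplicative ℤ) (t : mc c) (htc : ∀ m : mc c, t * m = m * t)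
    (hmc : ∀ m : mc c, k m = 1 → (m : Γ) ∈ mc' c)
    (hkt : ∀ m : mc c, k (m * t ^ (-(Multiplicative.toAdd (k m)))) = 1)
    (u : Multiplicative (ZMod 2)) :
    ∃ rc : mc c →* Multiplicative (ZMod 2), (∀ (x : mc c), k x = 1 →
      ∀ (h : p (Sum.inr c) * (x : Γ) * (p (Sum.inr c))⁻¹ ∈ L), rc x = f ⟨_, h⟩) ∧
      (k t = Multiplicative.ofAdd 1 → rc t = u) := by
  subst hL
  have hcor : ∀ (m : mc c), ((m * t ^ (-(Multiplicative.toAdd (k m))) : mc c) : Γ) ∈ mc' c :=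
    fun m => hmc _ (hkt m)
  have hin : ∀ (m : mc c), p (Sum.inr c) *
        ((m * t ^ (-(Multiplicative.toAdd (k m))) : mc c) : Γ) * (p (Sum.inr c))⁻¹ ∈
        Loop gv mc' vt ct s (Sum.inl v0) :=
    fun m => (hp _).conj (hp _) (Pa.cyl c _ (hcor m))
  have hone : f ⟨_, hin 1⟩ = 1 := by
    have h1 : (⟨_, hin 1⟩ : Loop gv mc' vt ct s (Sum.inl v0)) = 1 := by
      apply Subtype.ext
      show p (Sum.inr c) * (((1 : mc c) * t ^ (-(Multiplicative.toAdd (k 1))) : mc c) : Γ) *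
        (p (Sum.inr c))⁻¹ = 1
      rw [map_one, toAdd_one, neg_zero, zpow_zero, one_mul, Subgroup.coe_one, mul_one,
        mul_inv_cancel]
    rw [h1, map_one]
  have hmul : ∀ m n : mc c, f ⟨_, hin (m * n)⟩ = f ⟨_, hin m⟩ * f ⟨_, hin n⟩ := by
    intro m n
    rw [← map_mul]
    congr 1
    apply Subtype.ext
    show p (Sum.inr c) * (((m * n : mc c) * t ^ (-(Multiplicative.toAdd (k (m * n)))) :
      mc c) : Γ) * (p (Sum.inr c))⁻¹ = (p (Sum.inr c) *
      ((m * t ^ (-(Multiplicative.toAdd (k m))) : mc c) : Γ) * (p (Sum.inr c))⁻¹) *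
      (p (Sum.inr c) * ((n * t ^ (-(Multiplicative.toAdd (k n))) : mc c) : Γ) *
      (p (Sum.inr c))⁻¹)
    have h2 : (m * n : mc c) * t ^ (-(Multiplicative.toAdd (k (m * n)))) =
        (m * t ^ (-(Multiplicative.toAdd (k m)))) * (n * t ^ (-(Multiplicative.toAdd (k n)))) := by
      rw [map_mul, toAdd_mul, neg_add, zpow_add]
      have h3 : Commute t n := htc n
      have h4 : Commute (t ^ (-(Multiplicative.toAdd (k m)))) n := h3.zpow_left _
      calc m * n * (t ^ (-Multiplicative.toAdd (k m)) * t ^ (-Multiplicative.toAdd (k n)))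
          = m * (n * t ^ (-Multiplicative.toAdd (k m))) * t ^ (-Multiplicative.toAdd (k n)) := by
            simp only [mul_assoc]
        _ = m * (t ^ (-Multiplicative.toAdd (k m)) * n) * t ^ (-Multiplicative.toAdd (k n)) := by
            rw [h4.eq]
        _ = _ := by simp only [mul_assoc]
    rw [h2, Subgroup.coe_mul]
    group
  refine ⟨{ toFun := fun m => f ⟨_, hin m⟩ * u ^ (Multiplicative.toAdd (k m))
            map_one' := ?_
            map_mul' := ?_ }, ?_, ?_⟩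
  · show f ⟨_, hin 1⟩ * u ^ (Multiplicative.toAdd (k 1)) = 1
    rw [hone, map_one, toAdd_one, zpow_zero, one_mul]
  · intro m n
    show f ⟨_, hin (m * n)⟩ * u ^ (Multiplicative.toAdd (k (m * n))) =
      (f ⟨_, hin m⟩ * u ^ (Multiplicative.toAdd (k m))) *
      (f ⟨_, hin n⟩ * u ^ (Multiplicative.toAdd (k n)))
    rw [hmul, map_mul, toAdd_mul, zpow_add]
    exact mul_mul_mul_comm _ _ _ _
  · intro x hx h
    show f ⟨_, hin x⟩ * u ^ (Multiplicative.toAdd (k x)) = f ⟨_, h⟩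
    have h0 : u ^ (Multiplicative.toAdd (k x)) = 1 := by rw [hx, toAdd_one, zpow_zero]
    rw [h0, mul_one]
    congr 1
    apply Subtype.ext
    show p (Sum.inr c) * ((x * t ^ (-(Multiplicative.toAdd (k x))) : mc c) : Γ) *
      (p (Sum.inr c))⁻¹ = _
    rw [hx, toAdd_one, neg_zero, zpow_zero, mul_one]
  · intro h1
    show f ⟨_, hin t⟩ * u ^ (Multiplicative.toAdd (k t)) = u
    have h2 : (⟨_, hin t⟩ : Loop gv mc' vt ct s (Sum.inl v0)) = 1 := by
      apply Subtype.ext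
      show p (Sum.inr c) * ((t * t ^ (-(Multiplicative.toAdd (k t))) : mc c) : Γ) *
        (p (Sum.inr c))⁻¹ = 1
      rw [h1, toAdd_ofAdd, zpow_neg, zpow_one, mul_inv_cancel, Subgroup.coe_one, mul_one,
        mul_inv_cancel]
    rw [h2, map_one, h1, toAdd_ofAdd, zpow_one, one_mul]

/-- LEMMA X: extension of homomorphisms to `ℤ/2` from the group of the closed paths which use only
the kernels of `k c` at the cylinders. -/
theorem ext_frame {mc' : C → Subgroup Γ} {L : Subgroup Γ}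
    (hL : L = Loop gv mc' vt ct s (Sum.inl v0)) (hgen : PGen gv mc vt ct s v0)
    (hU : GU2 gv mc vt ct s ee)
    (k : ∀ c, mc c →* Multiplicative ℤ) (t : ∀ c, mc c) (htc : ∀ c (m : mc c), t c * m = m * t c)
    (hmc : ∀ c, ∀ m : mc c, k c m = 1 → (m : Γ) ∈ mc' c)
    (hmc' : ∀ c, ∀ m ∈ mc' c, ∃ h : m ∈ mc c, k c ⟨m, h⟩ = 1)
    (hkt : ∀ c (m : mc c), k c (m * (t c) ^ (-(Multiplicative.toAdd (k c m)))) = 1)
    (hke : ∀ e x (hx : x ∈ ee e), ∃ h2 : (s e)⁻¹ * x * s e ∈ mc (ct e), k (ct e) ⟨_, h2⟩ = 1)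
    (hee : ∀ e, ee e ≤ gv (vt e)) (p : V ⊕ C → Γ)
    (hp : ∀ a, Pa gv mc' vt ct s (Sum.inl v0) a (p a))
    (f : L →* Multiplicative (ZMod 2)) (u : Multiplicative (ZMod 2)) :
    ∃ f' : Γ →* Multiplicative (ZMod 2), (∀ g : L, f' g = f g) ∧
      ∀ c, k c (t c) = Multiplicative.ofAdd 1 →
        f' (p (Sum.inr c) * t c * (p (Sum.inr c))⁻¹) = u := by
  choose rv hrv using ext_rv hL p hp f
  choose rc hrc hrct using fun c => ext_rc hL p hp f c (k c) (t c) (htc c) (hmc c) (hkt c) u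
  have hconj : ∀ {a b : V ⊕ C} {γ : Γ}, Pa gv mc' vt ct s a b γ → p a * γ * (p b)⁻¹ ∈ L := by
    intro a b γ h
    rw [hL]
    exact (hp a).conj (hp b) h
  have hs : ∀ e, p (Sum.inl (vt e)) * s e * (p (Sum.inr (ct e)))⁻¹ ∈ L := fun e =>
    hconj (Pa.edge e)
  obtain ⟨r, α, β, hα, hβ, hσ⟩ := hU (fun v => uni.comp (rv v)) (fun c => uni.comp (rc c))
    (fun e => uni (f ⟨_, hs e⟩)) (by
      intro e x hx h1 h2
      obtain ⟨h3, h4⟩ := hke e x hx
      have h5 : p (Sum.inr (ct e)) * ((s e)⁻¹ * x * s e) * (p (Sum.inr (ct e)))⁻¹ ∈ L :=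
        hconj (Pa.cyl (ct e) _ (hmc _ ⟨_, h2⟩ h4))
      have h6 : p (Sum.inl (vt e)) * x * (p (Sum.inl (vt e)))⁻¹ ∈ L := hconj (Pa.vert _ x h1)
      show uni (rv (vt e) ⟨x, h1⟩) = uni (f ⟨_, hs e⟩) * uni (rc (ct e) ⟨_, h2⟩) *
        (uni (f ⟨_, hs e⟩))⁻¹
      rw [← map_inv, ← map_mul, ← map_mul, hrv _ ⟨x, h1⟩ h6, hrc _ ⟨_, h2⟩ h4 h5, ← map_inv,
        ← map_mul, ← map_mul]
      congr 2
      apply Subtype.ext
      show p (Sum.inl (vt e)) * x * (p (Sum.inl (vt e)))⁻¹ =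
        (p (Sum.inl (vt e)) * s e * (p (Sum.inr (ct e)))⁻¹) *
        (p (Sum.inr (ct e)) * ((s e)⁻¹ * x * s e) * (p (Sum.inr (ct e)))⁻¹) *
        (p (Sum.inl (vt e)) * s e * (p (Sum.inr (ct e)))⁻¹)⁻¹
      group)
  let ζ : V ⊕ C → Matrix.SpecialLinearGroup (Fin 2) (ZMod 2) := Sum.elim α β
  -- values on the paths
  have keyB : ∀ {a b : V ⊕ C} {γ : Γ}, Pa gv mc' vt ct s a b γ →
      ∃ h : p a * γ * (p b)⁻¹ ∈ L, ζ a * r γ * (ζ b)⁻¹ = uni (f ⟨_, h⟩) := by
    intro a b γ h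
    induction h with
    | vert v x hx =>
      refine ⟨hconj (Pa.vert v x hx), ?_⟩
      show α v * r x * (α v)⁻¹ = _
      rw [← hα v ⟨x, hx⟩]
      show uni (rv v ⟨x, hx⟩) = _
      rw [hrv v ⟨x, hx⟩ (hconj (Pa.vert v x hx))]
    | cyl c m hm =>
      refine ⟨hconj (Pa.cyl c m hm), ?_⟩
      show β c * r m * (β c)⁻¹ = _
      obtain ⟨h3, h4⟩ := hmc' c m hm
      rw [← hβ c ⟨m, h3⟩]
      show uni (rc c ⟨m, h3⟩) = _
      rw [hrc c ⟨m, h3⟩ h4 (hconj (Pa.cyl c m hm))]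
    | edge e =>
      exact ⟨hs e, (hσ e).symm⟩
    | @comp a b d g h _ _ h1 h2 =>
      obtain ⟨h3, h4⟩ := h1
      obtain ⟨h5, h6⟩ := h2
      have h7 : p a * (g * h) * (p d)⁻¹ = (p a * g * (p b)⁻¹) * (p b * h * (p d)⁻¹) := by group
      have h8 : p a * (g * h) * (p d)⁻¹ ∈ L := by rw [h7]; exact mul_mem h3 h5
      refine ⟨h8, ?_⟩
      have h9 : (⟨_, h8⟩ : L) = ⟨_, h3⟩ * ⟨_, h5⟩ := Subtype.ext h7
      rw [h9, map_mul f, map_mul uni, ← h4, ← h6, map_mul r]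
      group
    | @inv a b g _ h1 =>
      obtain ⟨h3, h4⟩ := h1
      have h7 : p b * g⁻¹ * (p a)⁻¹ = (p a * g * (p b)⁻¹)⁻¹ := by group
      have h8 : p b * g⁻¹ * (p a)⁻¹ ∈ L := by rw [h7]; exact inv_mem h3
      refine ⟨h8, ?_⟩
      have h9 : (⟨_, h8⟩ : L) = (⟨_, h3⟩ : L)⁻¹ := Subtype.ext h7
      rw [h9, map_inv f, map_inv uni, ← h4, map_inv r]
      group
  -- all values are unipotent
  have keyC := hgen (fun v => {γ | ∃ w, α v0 * r γ * (α v)⁻¹ = uni w})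
    (fun c => {γ | ∃ w, α v0 * r γ * (β c)⁻¹ = uni w}) ⟨1, by simp⟩
    (by
      rintro v g ⟨w, hw⟩ x hx
      refine ⟨w * rv v ⟨x, hx⟩, ?_⟩
      have h1 : uni (rv v ⟨x, hx⟩) = α v * r x * (α v)⁻¹ := hα v ⟨x, hx⟩
      rw [map_mul uni, ← hw, h1, map_mul r]
      group)
    (by
      rintro c g ⟨w, hw⟩ x hx
      refine ⟨w * rc c ⟨x, hx⟩, ?_⟩
      have h1 : uni (rc c ⟨x, hx⟩) = β c * r x * (β c)⁻¹ := hβ c ⟨x, hx⟩
      rw [map_mul uni, ← hw, h1, map_mul r]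
      group)
    (by
      rintro e g ⟨w, hw⟩
      refine ⟨w * f ⟨_, hs e⟩, ?_⟩
      have h1 : uni (f ⟨_, hs e⟩) = α (vt e) * r (s e) * (β (ct e))⁻¹ := hσ e
      rw [map_mul uni, ← hw, h1, map_mul r]
      group)
    (by
      rintro e g ⟨w, hw⟩
      refine ⟨w * (f ⟨_, hs e⟩)⁻¹, ?_⟩
      have h1 : uni (f ⟨_, hs e⟩) = α (vt e) * r (s e) * (β (ct e))⁻¹ := hσ e
      rw [map_mul uni, ← hw, map_inv uni, h1, map_mul r, map_inv r]
      group)
  have hr : ∀ γ, ∃ w, α v0 * r γ * (α v0)⁻¹ = uni w := keyC.1 v0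
  choose w hw using hr
  let f' : Γ →* Multiplicative (ZMod 2) := MonoidHom.mk' w (by
    intro a b
    apply uni_inj
    rw [map_mul, ← hw, ← hw, ← hw, map_mul]
    group)
  refine ⟨f', ?_, ?_⟩
  · rintro ⟨g, hg⟩
    apply uni_inj
    have hg' : Pa gv mc' vt ct s (Sum.inl v0) (Sum.inl v0) g := by rw [hL] at hg; exact hg
    obtain ⟨h1, h2⟩ := keyB hg'
    have h3 : α v0 * r g * (α v0)⁻¹ = uni (w g) := hw g
    show uni (w g) = _
    rw [← h3]
    refine Eq.trans h2 (congrArg uni ?_)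
    have h4 : p (Sum.inl v0) ∈ L := by rw [hL]; exact hp _
    have h5 : (⟨_, h1⟩ : L) = ⟨_, h4⟩ * ⟨g, hg⟩ * (⟨_, h4⟩ : L)⁻¹ := rfl
    rw [h5, map_mul, map_mul, map_inv, mul_comm (f _) (f ⟨g, hg⟩), mul_assoc, mul_inv_cancel,
      mul_one]
  · intro c hc
    apply uni_inj
    show uni (w _) = _
    rw [← hw]
    obtain ⟨w1, hw1⟩ := keyC.2 c (p (Sum.inr c))
    have h1 : uni (rc c (t c)) = β c * r (t c) * (β c)⁻¹ := hβ c (t c)
    rw [hrct c hc] at h1
    have h2 : α v0 * r (p (Sum.inr c) * t c * (p (Sum.inr c))⁻¹) * (α v0)⁻¹ =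
        uni w1 * uni u * (uni w1)⁻¹ := by
      rw [← hw1, h1, map_mul r, map_mul r, map_inv r]
      group
    rw [h2, ← map_inv, ← map_mul, ← map_mul, mul_comm w1 u, mul_assoc, mul_inv_cancel, mul_one]

/-- a homomorphism to `ℤ` made surjective -/
theorem norm_hom {M : Type} [Group M] (lam : M →* Multiplicative ℤ) (x1 : M) (hx1 : lam x1 ≠ 1) :
    ∃ (k : M →* Multiplicative ℤ) (t : M), k t = Multiplicative.ofAdd 1 ∧
      ∀ y, lam y = 1 → k y = 1 := by
  let f : M → ℤ := fun y => Multiplicative.toAdd (lam y)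
  have hf : ∀ y z, f (y * z) = f y + f z := by
    intro y z
    show Multiplicative.toAdd (lam (y * z)) = _
    rw [map_mul, toAdd_mul]
  obtain ⟨n, hn⟩ := Int.subgroup_cyclic (MonoidHom.toAdditive lam).range
  rw [← AddSubgroup.zmultiples_eq_closure] at hn
  have hmem : ∀ y, ∃ j : ℤ, j * n = f y := by
    intro y
    have h1 : f y ∈ (MonoidHom.toAdditive lam).range := ⟨Additive.ofMul y, rfl⟩
    rw [hn] at h1
    obtain ⟨j, hj⟩ := AddSubgroup.mem_zmultiples_iff.1 h1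
    exact ⟨j, by rw [← hj, smul_eq_mul]⟩
  have hn0 : n ≠ 0 := by
    rintro rfl
    obtain ⟨j, hj⟩ := hmem x1
    apply hx1
    rw [mul_zero] at hj
    exact Multiplicative.toAdd.injective (by rw [toAdd_one]; exact hj.symm)
  obtain ⟨t, ht⟩ : ∃ t, f t = n := by
    have h1 : n ∈ (MonoidHom.toAdditive lam).range := by
      rw [hn]; exact AddSubgroup.mem_zmultiples n
    obtain ⟨y, hy⟩ := h1
    exact ⟨Additive.toMul y, hy⟩
  choose j hj using hmem
  refine ⟨MonoidHom.mk' (fun y => Multiplicative.ofAdd (j y)) ?_, t, ?_, ?_⟩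
  · intro y z
    rw [← ofAdd_add]
    congr 1
    have h1 : (j (y * z)) * n = (j y + j z) * n := by
      rw [hj, hf, add_mul, hj, hj]
    exact mul_right_cancel₀ hn0 h1
  · show Multiplicative.ofAdd (j t) = _
    congr 1
    have h1 : (j t) * n = 1 * n := by rw [hj, ht, one_mul]
    exact mul_right_cancel₀ hn0 h1
  · intro y hy
    show Multiplicative.ofAdd (j y) = 1
    rw [← ofAdd_zero]
    congr 1
    have h1 : (j y) * n = 0 * n := by
      rw [hj, zero_mul]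
      show Multiplicative.toAdd (lam y) = 0
      rw [hy, toAdd_one]
    exact mul_right_cancel₀ hn0 h1

/-- an element of infinite order modulo `N` is seen by a homomorphism to `ℤ` trivial on `N` -/
theorem exists_hom_int {M : Type} [CommGroup M] [Group.FG M] (N : Subgroup M) (y : M)
    (hy : ∀ n : ℕ, 0 < n → y ^ n ∉ N) :
    ∃ lam : M →* Multiplicative ℤ, (∀ x ∈ N, lam x = 1) ∧ lam y ≠ 1 := by
  let A := Additive M
  have : Module.Finite ℤ A := Module.Finite.iff_addGroup_fg.2 inferInstance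
  let N' : Submodule ℤ A := AddSubgroup.toIntSubmodule (Subgroup.toAddSubgroup N)
  let T := Submodule.torsion ℤ (A ⧸ N')
  let Q := (A ⧸ N') ⧸ T
  have : Module.Free ℤ Q := Module.free_of_finite_type_torsion_free'
  let y' : Q := T.mkQ (N'.mkQ (Additive.ofMul y))
  have hy' : y' ≠ 0 := by
    intro h
    have h1 : N'.mkQ (Additive.ofMul y) ∈ T := (Submodule.Quotient.mk_eq_zero T).1 h
    rw [Submodule.mem_torsion_iff] at h1
    obtain ⟨⟨n, hn⟩, h2⟩ := h1
    have h3 : n ≠ 0 := nonZeroDivisors.ne_zero hn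
    have h4 : n • N'.mkQ (Additive.ofMul y) = 0 := h2
    rw [← map_smul] at h4
    have h5 : n • (Additive.ofMul y) ∈ N' := (Submodule.Quotient.mk_eq_zero N').1 h4
    have h6 : y ^ n ∈ N := h5
    apply hy n.natAbs (Int.natAbs_pos.2 h3)
    rcases Int.natAbs_eq n with h7 | h7
    · rw [h7] at h6
      exact (zpow_natCast y _) ▸ h6
    · rw [h7, zpow_neg, inv_mem_iff, zpow_natCast] at h6
      exact h6
  obtain ⟨φ, hφ⟩ : ∃ φ : Module.Dual ℤ Q, φ y' ≠ 0 := by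
    by_contra h
    push Not at h
    exact hy' ((Module.forall_dual_apply_eq_zero_iff ℤ y').1 h)
  let ψ : A →+ ℤ := (φ.comp (T.mkQ.comp N'.mkQ)).toAddMonoidHom
  refine ⟨AddMonoidHom.toMultiplicativeRight ψ, ?_, ?_⟩
  · intro x hx
    have h1 : N'.mkQ (Additive.ofMul x) = 0 := (Submodule.Quotient.mk_eq_zero N').2 hx
    show Multiplicative.ofAdd (φ (T.mkQ (N'.mkQ (Additive.ofMul x)))) = 1
    rw [h1, map_zero, map_zero]
    rfl
  · intro h
    apply hφ
    exact Multiplicative.ofAdd.injective h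

end Frame

section Main

variable {b : ℕ} {Γ K F : Type} [Group Γ] [Field K] [Field F] [Algebra (ZMod 2) K]
    [Algebra (ZMod 2) F] [Algebra K F] {T : Γ → K}
    {ρ : Γ →* Matrix.SpecialLinearGroup (Fin 2) F} {V C E : Type}
    {gv : V → Subgroup Γ} {mc : C → Subgroup Γ} {vt : E → V} {ct : E → C} {s : E → Γ}
    {ee : E → Subgroup Γ} {v0 : V}

/-- LEMMA X for splittings in gauge form.  No cylinder group `mc c0` has a nontrivial homomorphism
`lam` to `ℤ` which is trivial on all edge groups at `c0` and whose kernel contains an element `m`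
with `ρ m ≠ 1`. -/
theorem lemX_frame (h : HB 2 b Γ K F T ρ) [Finite V] [Finite C] [Finite E]
    (hgen : PGen gv mc vt ct s v0) (hU : GU2 gv mc vt ct s ee)
    (hgv : ∀ v, (gv v).FG) (hmc : ∀ c, (mc c).FG)
    (hee : ∀ e, ∀ x ∈ ee e, x ∈ gv (vt e) ∧ (s e)⁻¹ * x * s e ∈ mc (ct e))
    (c0 : C) (hcomm : ∀ x ∈ mc c0, ∀ y ∈ mc c0, x * y = y * x)
    (lam : mc c0 →* Multiplicative ℤ) (x1 : mc c0) (hx1 : lam x1 ≠ 1)
    (hle : ∀ e x, x ∈ ee e → ∀ hc : ct e = c0, ∀ h2 : (s e)⁻¹ * x * s e ∈ mc c0,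
      lam ⟨(s e)⁻¹ * x * s e, h2⟩ = 1)
    (m : mc c0) (hm : lam m = 1) (hm1 : ρ m ≠ 1) : False := by
  obtain ⟨k0, t0, hkt0, hk0⟩ := norm_hom lam x1 hx1
  have hex : ∀ c, ∃ (k : mc c →* Multiplicative ℤ) (t : mc c), (∀ x, t * x = x * t) ∧
      (∀ x, k (x * t ^ (-(Multiplicative.toAdd (k x)))) = 1) ∧
      (c = c0 → k t = Multiplicative.ofAdd 1) ∧ (c ≠ c0 → t = 1) ∧
      (∀ e x, x ∈ ee e → ct e = c → ∀ h2 : (s e)⁻¹ * x * s e ∈ mc c,
        k ⟨(s e)⁻¹ * x * s e, h2⟩ = 1) ∧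
      (∀ hm' : (m : Γ) ∈ mc c, c = c0 → k ⟨m, hm'⟩ = 1) := by
    intro c
    by_cases hc : c = c0
    · subst hc
      refine ⟨k0, t0, fun x => Subtype.ext (hcomm _ t0.2 _ x.2), ?_, fun _ => hkt0,
        fun hc => absurd rfl hc, ?_, ?_⟩
      · intro x
        rw [map_mul, map_zpow, hkt0]
        apply Multiplicative.toAdd.injective
        simp
      · intro e x hx hct h2
        exact hk0 _ (hle e x hx hct h2)
      · intro hm' _
        exact hk0 _ hm
    · exact ⟨1, 1, fun x => by rw [one_mul, mul_one], fun x => rfl, fun hc' => absurd hc' hc,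
        fun _ => rfl, fun _ _ _ _ _ => rfl, fun _ _ => rfl⟩
  choose k t htc hkt hk1 ht1 hke hkm using hex
  set mc' : C → Subgroup Γ := fun c => (k c).ker.map (mc c).subtype with hmc'
  have hmcm : ∀ c, ∀ x : mc c, k c x = 1 → (x : Γ) ∈ mc' c := fun c x hx => ⟨x, hx, rfl⟩
  have hmcm' : ∀ c, ∀ x ∈ mc' c, ∃ h : x ∈ mc c, k c ⟨x, h⟩ = 1 := by
    rintro c _ ⟨x, hx, rfl⟩
    exact ⟨x.2, hx⟩
  -- the subgroups are finitely generated
  have hmcfg : ∀ c, (mc' c).FG := by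
    intro c
    have : Group.FG (mc c) := (Group.fg_iff_subgroup_fg _).2 (hmc c)
    let φ : mc c →* Γ := MonoidHom.mk' (fun x =>
      ((x * (t c) ^ (-(Multiplicative.toAdd (k c x))) : mc c) : Γ)) (by
        intro x y
        show ((x * y * (t c) ^ (-(Multiplicative.toAdd (k c (x * y)))) : mc c) : Γ) =
          ((x * (t c) ^ (-(Multiplicative.toAdd (k c x))) : mc c) : Γ) *
          ((y * (t c) ^ (-(Multiplicative.toAdd (k c y))) : mc c) : Γ)
        rw [← Subgroup.coe_mul]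
        congr 1
        rw [map_mul, toAdd_mul, neg_add, zpow_add]
        have h3 : Commute (t c) y := htc c y
        have h4 : Commute (t c ^ (-(Multiplicative.toAdd (k c x)))) y := h3.zpow_left _
        calc x * y * (t c ^ (-Multiplicative.toAdd (k c x)) *
              t c ^ (-Multiplicative.toAdd (k c y)))
            = x * (y * t c ^ (-Multiplicative.toAdd (k c x))) *
              t c ^ (-Multiplicative.toAdd (k c y)) := by simp only [mul_assoc]
          _ = x * (t c ^ (-Multiplicative.toAdd (k c x)) * y) *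
              t c ^ (-Multiplicative.toAdd (k c y)) := by rw [h4.eq]
          _ = _ := by simp only [mul_assoc])
    have h1 : mc' c = φ.range := by
      apply le_antisymm
      · intro x hx
        obtain ⟨h2, h3⟩ := hmcm' c x hx
        refine ⟨⟨x, h2⟩, ?_⟩
        show (((⟨x, h2⟩ : mc c) * (t c) ^ (-(Multiplicative.toAdd (k c ⟨x, h2⟩))) : mc c) : Γ) = x
        rw [h3, toAdd_one, neg_zero, zpow_zero, mul_one]
      · rintro _ ⟨x, rfl⟩
        exact hmcm c _ (hkt c x)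
    rw [h1, ← Group.fg_iff_subgroup_fg]
    infer_instance
  obtain ⟨p, hp⟩ : ∃ p : V ⊕ C → Γ, ∀ a, Pa gv mc' vt ct s (Sum.inl v0) a (p a) :=
    ⟨fun a => (hgen.conn gv mc' a).choose, fun a => (hgen.conn gv mc' a).choose_spec⟩
  have hLfg := loop_fg p hp hgv hmcfg
  set L := Loop gv mc' vt ct s (Sum.inl v0) with hL
  have hconj : ∀ {a b : V ⊕ C} {γ : Γ}, Pa gv mc' vt ct s a b γ → p a * γ * (p b)⁻¹ ∈ L :=
    fun {a b γ} h => (hp a).conj (hp b) h
  have hkt1 : k c0 (t c0) = Multiplicative.ofAdd 1 := hk1 c0 rfl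
  refine lemX h L ((Group.fg_iff_subgroup_fg _).2 hLfg)
    (p (Sum.inr c0) * t c0 * (p (Sum.inr c0))⁻¹) (p (Sum.inr c0) * m * (p (Sum.inr c0))⁻¹)
    (hconj (Pa.cyl c0 _ (hmcm c0 ⟨m, m.2⟩ (hkm c0 m.2 rfl)))) ?_ ?_ ?_ ?_
  · intro h1
    apply hm1
    rw [map_mul, map_mul, map_inv] at h1
    have h2 := congrArg (fun x => (ρ (p (Sum.inr c0)))⁻¹ * x * ρ (p (Sum.inr c0))) h1
    simpa [mul_assoc] using h2
  · rw [← map_mul, ← map_mul]
    congr 1
    have h1 : (t c0 : Γ) * m = m * t c0 := congrArg Subtype.val (htc c0 m)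
    calc p (Sum.inr c0) * ↑(t c0) * (p (Sum.inr c0))⁻¹ * (p (Sum.inr c0) * ↑m *
          (p (Sum.inr c0))⁻¹) = p (Sum.inr c0) * (↑(t c0) * ↑m) * (p (Sum.inr c0))⁻¹ := by group
      _ = p (Sum.inr c0) * (↑m * ↑(t c0)) * (p (Sum.inr c0))⁻¹ := by rw [h1]
      _ = _ := by group
  · set H := Subgroup.closure ((L : Set Γ) ∪ {p (Sum.inr c0) * t c0 * (p (Sum.inr c0))⁻¹}) with hH
    have hLH : L ≤ H := by
      intro x hx
      exact Subgroup.subset_closure (Or.inl hx)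
    have hth : ∀ c, p (Sum.inr c) * t c * (p (Sum.inr c))⁻¹ ∈ H := by
      intro c
      by_cases hc : c = c0
      · subst hc
        exact Subgroup.subset_closure (Or.inr rfl)
      · rw [ht1 c hc, Subgroup.coe_one, mul_one, mul_inv_cancel]
        exact one_mem _
    have h1 := hgen (fun v => {g | g * (p (Sum.inl v))⁻¹ ∈ H})
      (fun c => {g | g * (p (Sum.inr c))⁻¹ ∈ H})
      (by
        show 1 * (p (Sum.inl v0))⁻¹ ∈ H
        rw [one_mul]
        exact inv_mem (hLH (hp _)))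
      (by
        intro v g hg x hx
        show g * x * (p (Sum.inl v))⁻¹ ∈ H
        have h2 : g * x * (p (Sum.inl v))⁻¹ =
          (g * (p (Sum.inl v))⁻¹) * (p (Sum.inl v) * x * (p (Sum.inl v))⁻¹) := by group
        rw [h2]
        exact mul_mem hg (hLH (hconj (Pa.vert v x hx))))
      (by
        intro c g hg x hx
        show g * x * (p (Sum.inr c))⁻¹ ∈ H
        have h2 : g * x * (p (Sum.inr c))⁻¹ =
          (g * (p (Sum.inr c))⁻¹) * (p (Sum.inr c) *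
            (((⟨x, hx⟩ : mc c) * (t c) ^ (-(Multiplicative.toAdd (k c ⟨x, hx⟩))) : mc c) : Γ) *
            (p (Sum.inr c))⁻¹) * (p (Sum.inr c) * t c * (p (Sum.inr c))⁻¹) ^
            (Multiplicative.toAdd (k c ⟨x, hx⟩)) := by
          rw [conj_zpow, Subgroup.coe_mul, Subgroup.coe_zpow]
          group
        rw [h2]
        exact mul_mem (mul_mem hg (hLH (hconj (Pa.cyl c _ (hmcm c _ (hkt c _))))))
          (zpow_mem (hth c) _))
      (by
        intro e g hg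
        show g * s e * (p (Sum.inr (ct e)))⁻¹ ∈ H
        have h2 : g * s e * (p (Sum.inr (ct e)))⁻¹ = (g * (p (Sum.inl (vt e)))⁻¹) *
          (p (Sum.inl (vt e)) * s e * (p (Sum.inr (ct e)))⁻¹) := by group
        rw [h2]
        exact mul_mem hg (hLH (hconj (Pa.edge e))))
      (by
        intro e g hg
        show g * (s e)⁻¹ * (p (Sum.inl (vt e)))⁻¹ ∈ H
        have h2 : g * (s e)⁻¹ * (p (Sum.inl (vt e)))⁻¹ = (g * (p (Sum.inr (ct e)))⁻¹) *
          (p (Sum.inl (vt e)) * s e * (p (Sum.inr (ct e)))⁻¹)⁻¹ := by group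
        rw [h2]
        exact mul_mem hg (inv_mem (hLH (hconj (Pa.edge e)))))
    rw [eq_top_iff]
    intro g _
    have h2 : g * (p (Sum.inl v0))⁻¹ ∈ H := h1.1 v0 g
    have h3 : g = (g * (p (Sum.inl v0))⁻¹) * p (Sum.inl v0) := by group
    rw [h3]
    exact mul_mem h2 (hLH (hp _))
  · intro f c
    obtain ⟨f', hf', hf't⟩ := ext_frame hL hgen hU k t htc hmcm hmcm' hkt
      (fun e x hx => ⟨(hee e x hx).2, hke (ct e) e x hx rfl _⟩) (fun e x hx => (hee e x hx).1) p hp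
      f c
    exact ⟨f', hf', hf't c0 hkt1⟩

/-- LEMMA X: the cylinder group `mc c0` is of finite index over every subgroup `N` which contains
all edge groups at `c0`, if it contains an element `m` with `ρ m ≠ 1`. -/
theorem lemX_index (h : HB 2 b Γ K F T ρ) [Finite V] [Finite C] [Finite E]
    (hgen : PGen gv mc vt ct s v0) (hU : GU2 gv mc vt ct s ee)
    (hgv : ∀ v, (gv v).FG) (hmc : ∀ c, (mc c).FG)
    (hee : ∀ e, ∀ x ∈ ee e, x ∈ gv (vt e) ∧ (s e)⁻¹ * x * s e ∈ mc (ct e))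
    (c0 : C) (hcomm : ∀ x ∈ mc c0, ∀ y ∈ mc c0, x * y = y * x)
    (N : Subgroup (mc c0))
    (hN : ∀ e x, x ∈ ee e → ∀ hc : ct e = c0, ∀ h2 : (s e)⁻¹ * x * s e ∈ mc c0,
      (⟨(s e)⁻¹ * x * s e, h2⟩ : mc c0) ∈ N)
    (m : mc c0) (hm : m ∈ N) (hm1 : ρ m ≠ 1) :
    N.FiniteIndex ∧ ∀ y : mc c0, ∃ n : ℕ, 0 < n ∧ y ^ n ∈ N := by
  letI : CommGroup (mc c0) := { (inferInstance : Group (mc c0)) with
    mul_comm := fun x y => Subtype.ext (hcomm _ x.2 _ y.2) }
  have hfg : Group.FG (mc c0) := (Group.fg_iff_subgroup_fg _).2 (hmc c0)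
  have key : ∀ y : mc c0, ∃ n : ℕ, 0 < n ∧ y ^ n ∈ N := by
    intro y
    by_contra hy
    push Not at hy
    obtain ⟨lam, h1, h2⟩ := exists_hom_int N y hy
    exact lemX_frame h hgen hU hgv hmc hee c0 hcomm lam y h2
      (fun e x hx hc h2 => h1 _ (hN e x hx hc h2)) m (h1 m hm) hm1
  refine ⟨?_, key⟩
  have ht : Monoid.IsTorsion (mc c0 ⧸ N) := by
    intro x
    obtain ⟨y, rfl⟩ := QuotientGroup.mk_surjective x
    obtain ⟨n, hn, hy⟩ := key y
    refine isOfFinOrder_iff_pow_eq_one.2 ⟨n, hn, ?_⟩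
    rw [← QuotientGroup.mk_pow]
    exact (QuotientGroup.eq_one_iff _).2 hy
  have hfin : Finite (mc c0 ⧸ N) := CommGroup.finite_of_fg_torsion _ ht
  exact Subgroup.finiteIndex_of_finite_quotient

end Main

end Pool.Agent.FrX
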