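import Pool.Agent.Lib.MP_305fdd_al.Fr.X.Dim

/-!
# MP_305fdd_al, F_r: Lemma D

`A` is a group, `ρ : A → SL_2(O)`, the domain `O` is a finitely generated `𝔽_p`-algebra generated by
the entries of `ρ(A)`, and the trivial representation is a specialisation of `ρ`.  If `A` has
`p ^ b` homomorphisms to `ℤ/p` then the transcendence degree of `O` is at most `3 b`.
-/

set_option autoImplicit false
set_option linter.unusedSectionVars false

namespace Pool.Agent.FrX

variable {p : ℕ} [hp : Fact p.Prime] {A : Type} [Group A] {O : Type} [CommRing O]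
  [Algebra (ZMod p) O]

/-- the kernel of the specialisation is generated by the entries of `ρ(a) - 1` -/
theorem ker_eq (ρ : A →* Matrix.SpecialLinearGroup (Fin 2) O)
    (hgen : Algebra.adjoin (ZMod p) {x : O | ∃ a i j, x = (ρ a : Matrix (Fin 2) (Fin 2) O) i j} = ⊤)
    (φ : O →+* ZMod p)
    (hφ : ∀ a i j, φ ((ρ a : Matrix (Fin 2) (Fin 2) O) i j) =
      (1 : Matrix (Fin 2) (Fin 2) (ZMod p)) i j) (z : O) (hz : φ z = 0) :
    z ∈ Ideal.span {x : O | ∃ a i j, x = (ρ a : Matrix (Fin 2) (Fin 2) O) i j -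
      (1 : Matrix (Fin 2) (Fin 2) O) i j} := by
  set I := Ideal.span {x : O | ∃ a i j, x = (ρ a : Matrix (Fin 2) (Fin 2) O) i j -
      (1 : Matrix (Fin 2) (Fin 2) O) i j} with hI
  have hal : ∀ r : ZMod p, φ (algebraMap (ZMod p) O r) = r := by
    intro r
    have : (φ.comp (algebraMap (ZMod p) O)) = RingHom.id _ := Subsingleton.elim _ _
    exact congrArg (fun f : ZMod p →+* ZMod p => f r) this
  have h1 : ∀ x ∈ Algebra.adjoin (ZMod p)
      {x : O | ∃ a i j, x = (ρ a : Matrix (Fin 2) (Fin 2) O) i j},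
      x - algebraMap (ZMod p) O (φ x) ∈ I := by
    intro x hx
    induction hx using Algebra.adjoin_induction with
    | mem x hx =>
      obtain ⟨a, i, j, rfl⟩ := hx
      rw [hφ]
      have h2 : algebraMap (ZMod p) O ((1 : Matrix (Fin 2) (Fin 2) (ZMod p)) i j) =
          (1 : Matrix (Fin 2) (Fin 2) O) i j := by
        by_cases h : i = j
        · rw [h, Matrix.one_apply_eq, Matrix.one_apply_eq, map_one]
        · rw [Matrix.one_apply_ne h, Matrix.one_apply_ne h, map_zero]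
      rw [h2]
      exact Ideal.subset_span ⟨a, i, j, rfl⟩
    | algebraMap r => rw [hal, sub_self]; exact zero_mem _
    | add x x' _ _ hx hx' =>
      rw [map_add, map_add, add_sub_add_comm]
      exact add_mem hx hx'
    | mul x x' _ _ hx hx' =>
      have : x * x' - algebraMap (ZMod p) O (φ (x * x')) =
          (x - algebraMap (ZMod p) O (φ x)) * x' + algebraMap (ZMod p) O (φ x) *
            (x' - algebraMap (ZMod p) O (φ x')) := by
        rw [map_mul, map_mul]; ring
      rw [this]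
      exact add_mem (Ideal.mul_mem_right _ _ hx) (Ideal.mul_mem_left _ _ hx')
  have h2 := h1 z (by rw [hgen]; exact Algebra.mem_top)
  rwa [hz, map_zero, sub_zero] at h2

variable (ρ : A →* Matrix.SpecialLinearGroup (Fin 2) O) (φ : O →+* ZMod p)

/-- an entry of `ρ(a) - 1` in the ideal of the point -/
def en (hφ : ∀ a i j, φ ((ρ a : Matrix (Fin 2) (Fin 2) O) i j) =
      (1 : Matrix (Fin 2) (Fin 2) (ZMod p)) i j) (a : A) (i j : Fin 2) : RingHom.ker φ :=
  ⟨(ρ a : Matrix (Fin 2) (Fin 2) O) i j - (1 : Matrix (Fin 2) (Fin 2) O) i j, by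
    rw [RingHom.mem_ker, map_sub, hφ]
    by_cases h : i = j
    · rw [h, Matrix.one_apply_eq, Matrix.one_apply_eq, map_one, sub_self]
    · rw [Matrix.one_apply_ne h, Matrix.one_apply_ne h, map_zero, sub_self]⟩

variable (hφ : ∀ a i j, φ ((ρ a : Matrix (Fin 2) (Fin 2) O) i j) =
      (1 : Matrix (Fin 2) (Fin 2) (ZMod p)) i j)

theorem en_mul (a a' : A) (i j : Fin 2) :
    (RingHom.ker φ).toCotangent (en ρ φ hφ (a * a') i j) =
      (RingHom.ker φ).toCotangent (en ρ φ hφ a i j) +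
        (RingHom.ker φ).toCotangent (en ρ φ hφ a' i j) := by
  rw [← map_add, Ideal.toCotangent_eq]
  have h1 : ((en ρ φ hφ (a * a') i j : RingHom.ker φ) : O) -
      ((en ρ φ hφ a i j + en ρ φ hφ a' i j : RingHom.ker φ) : O) =
      ∑ k, (en ρ φ hφ a i k : O) * (en ρ φ hφ a' k j : O) := by
    have h2 : (ρ (a * a') : Matrix (Fin 2) (Fin 2) O) =
      (ρ a : Matrix (Fin 2) (Fin 2) O) * (ρ a' : Matrix (Fin 2) (Fin 2) O) := by
      rw [map_mul]; rfl
    show ((ρ (a * a') : Matrix (Fin 2) (Fin 2) O) i j - (1 : Matrix (Fin 2) (Fin 2) O) i j) -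
      (((ρ a : Matrix (Fin 2) (Fin 2) O) i j - (1 : Matrix (Fin 2) (Fin 2) O) i j) +
        ((ρ a' : Matrix (Fin 2) (Fin 2) O) i j - (1 : Matrix (Fin 2) (Fin 2) O) i j)) =
      ∑ k, ((ρ a : Matrix (Fin 2) (Fin 2) O) i k - (1 : Matrix (Fin 2) (Fin 2) O) i k) *
        ((ρ a' : Matrix (Fin 2) (Fin 2) O) k j - (1 : Matrix (Fin 2) (Fin 2) O) k j)
    have h3 : (ρ (a * a') : Matrix (Fin 2) (Fin 2) O) - 1 - (((ρ a : Matrix (Fin 2) (Fin 2) O) - 1) +
        ((ρ a' : Matrix (Fin 2) (Fin 2) O) - 1)) =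
        ((ρ a : Matrix (Fin 2) (Fin 2) O) - 1) * ((ρ a' : Matrix (Fin 2) (Fin 2) O) - 1) := by
      rw [h2]; noncomm_ring
    have h4 := congrFun (congrFun h3 i) j
    simpa [Matrix.mul_apply] using h4
  rw [h1, pow_two]
  exact Ideal.sum_mem _ fun k _ => Ideal.mul_mem_mul (en ρ φ hφ a i k).2 (en ρ φ hφ a' k j).2

theorem en_trace (a : A) :
    (RingHom.ker φ).toCotangent (en ρ φ hφ a 1 1) =
      - (RingHom.ker φ).toCotangent (en ρ φ hφ a 0 0) := by
  rw [eq_neg_iff_add_eq_zero, ← map_add, Ideal.toCotangent_eq_zero, pow_two]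
  have h1 : ((en ρ φ hφ a 1 1 + en ρ φ hφ a 0 0 : RingHom.ker φ) : O) =
      (en ρ φ hφ a 0 1 : O) * (en ρ φ hφ a 1 0 : O) - (en ρ φ hφ a 0 0 : O) *
        (en ρ φ hφ a 1 1 : O) := by
    have h2 := (ρ a).2
    rw [Matrix.det_fin_two] at h2
    show ((ρ a : Matrix (Fin 2) (Fin 2) O) 1 1 - (1 : Matrix (Fin 2) (Fin 2) O) 1 1) +
      ((ρ a : Matrix (Fin 2) (Fin 2) O) 0 0 - (1 : Matrix (Fin 2) (Fin 2) O) 0 0) =
      ((ρ a : Matrix (Fin 2) (Fin 2) O) 0 1 - (1 : Matrix (Fin 2) (Fin 2) O) 0 1) *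
      ((ρ a : Matrix (Fin 2) (Fin 2) O) 1 0 - (1 : Matrix (Fin 2) (Fin 2) O) 1 0) -
      ((ρ a : Matrix (Fin 2) (Fin 2) O) 0 0 - (1 : Matrix (Fin 2) (Fin 2) O) 0 0) *
      ((ρ a : Matrix (Fin 2) (Fin 2) O) 1 1 - (1 : Matrix (Fin 2) (Fin 2) O) 1 1)
    simp only [Matrix.one_apply_eq, Matrix.one_apply_ne (show (0 : Fin 2) ≠ 1 by decide),
      Matrix.one_apply_ne (show (1 : Fin 2) ≠ 0 by decide)]
    linear_combination h2
  rw [h1]
  exact sub_mem (Ideal.mul_mem_mul (en ρ φ hφ a 0 1).2 (en ρ φ hφ a 1 0).2)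
    (Ideal.mul_mem_mul (en ρ φ hφ a 0 0).2 (en ρ φ hφ a 1 1).2)

/-- a functional gives a homomorphism to `ℤ/p` -/
def chr (l : (RingHom.ker φ).Cotangent →ₗ[ZMod p] ZMod p) (i j : Fin 2) :
    A →* Multiplicative (ZMod p) where
  toFun a := Multiplicative.ofAdd (l ((RingHom.ker φ).toCotangent (en ρ φ hφ a i j)))
  map_one' := by
    have h := en_mul ρ φ hφ 1 1 i j
    rw [mul_one] at h
    have h2 : (RingHom.ker φ).toCotangent (en ρ φ hφ 1 i j) = 0 := by
      have := congrArg (fun x => x - (RingHom.ker φ).toCotangent (en ρ φ hφ 1 i j)) h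
      simpa using this.symm
    rw [h2, map_zero]; rfl
  map_mul' a a' := by
    rw [en_mul, map_add]; rfl

/-- the ring acts on the cotangent space through the point -/
theorem smul_eq (z : O) (w : (RingHom.ker φ).Cotangent) : z • w = φ z • w := by
  have hal : φ (algebraMap (ZMod p) O (φ z)) = φ z := by
    have : (φ.comp (algebraMap (ZMod p) O)) = RingHom.id _ := Subsingleton.elim _ _
    exact congrArg (fun f : ZMod p →+* ZMod p => f (φ z)) this
  obtain ⟨c, rfl⟩ := (RingHom.ker φ).toCotangent_surjective w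
  have h1 : φ z • (RingHom.ker φ).toCotangent c =
      (algebraMap (ZMod p) O (φ z)) • (RingHom.ker φ).toCotangent c := by
    rw [algebraMap_smul]
  rw [h1, ← sub_eq_zero, ← sub_smul, ← map_smul, Ideal.toCotangent_eq_zero, pow_two]
  refine Ideal.mul_mem_mul ?_ c.2
  rw [RingHom.mem_ker, map_sub, hal, sub_self]

include hφ in
/-- the entries span the cotangent space -/
theorem span_top
    (hgen : Algebra.adjoin (ZMod p) {x : O | ∃ a i j, x = (ρ a : Matrix (Fin 2) (Fin 2) O) i j} = ⊤)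
    (V : Submodule (ZMod p) (RingHom.ker φ).Cotangent)
    (hV : ∀ a i j, (RingHom.ker φ).toCotangent (en ρ φ hφ a i j) ∈ V) : V = ⊤ := by
  rw [eq_top_iff]
  intro w _
  obtain ⟨⟨c, hc⟩, rfl⟩ := (RingHom.ker φ).toCotangent_surjective w
  have h1 := ker_eq ρ hgen φ hφ c hc
  have h2 : ∀ c ∈ Ideal.span {x : O | ∃ a i j, x = (ρ a : Matrix (Fin 2) (Fin 2) O) i j -
      (1 : Matrix (Fin 2) (Fin 2) O) i j}, ∃ hc : c ∈ RingHom.ker φ,
      (RingHom.ker φ).toCotangent ⟨c, hc⟩ ∈ V := by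
    intro c hc
    refine Submodule.span_induction (p := fun c _ => ∃ hc : c ∈ RingHom.ker φ,
      (RingHom.ker φ).toCotangent ⟨c, hc⟩ ∈ V) ?_ ?_ ?_ ?_ hc
    · rintro _ ⟨a, i, j, rfl⟩
      exact ⟨(en ρ φ hφ a i j).2, hV a i j⟩
    · refine ⟨zero_mem _, ?_⟩
      have : (⟨0, zero_mem _⟩ : RingHom.ker φ) = 0 := rfl
      rw [this, map_zero]
      exact zero_mem _
    · rintro x x' _ _ ⟨hx, h⟩ ⟨hx', h'⟩
      refine ⟨add_mem hx hx', ?_⟩
      have : (⟨x + x', add_mem hx hx'⟩ : RingHom.ker φ) = ⟨x, hx⟩ + ⟨x', hx'⟩ := rfl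
      rw [this, map_add]
      exact add_mem h h'
    · rintro r x _ ⟨hx, h⟩
      refine ⟨Ideal.mul_mem_left _ r hx, ?_⟩
      have : (⟨r • x, Ideal.mul_mem_left _ r hx⟩ : RingHom.ker φ) = r • ⟨x, hx⟩ := rfl
      rw [this, map_smul, smul_eq]
      exact Submodule.smul_mem _ _ h
  obtain ⟨_, h⟩ := h2 c h1
  exact h

include hφ in
/-- LEMMA D, cotangent form. -/
theorem exists_gen
    (hgen : Algebra.adjoin (ZMod p) {x : O | ∃ a i j, x = (ρ a : Matrix (Fin 2) (Fin 2) O) i j} = ⊤)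
    [IsNoetherianRing O] (b : ℕ) [Finite (A →* Multiplicative (ZMod p))]
    (hb : Nat.card (A →* Multiplicative (ZMod p)) ≤ p ^ b) :
    ∃ (e : ℕ) (y : Fin e → O), e ≤ 3 * b ∧ (∀ i, φ (y i) = 0) ∧
      RingHom.ker φ ≤ Ideal.span (Set.range y) ⊔ (RingHom.ker φ) ^ 2 := by
  classical
  have hfin : Module.Finite (ZMod p) (RingHom.ker φ).Cotangent := by
    have h1 : Module.Finite O (RingHom.ker φ).Cotangent :=
      Module.Finite.of_surjective (RingHom.ker φ).toCotangent (RingHom.ker φ).toCotangent_surjective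
    obtain ⟨S, hS⟩ := Module.finite_def.1 h1
    refine Module.finite_def.2 ⟨S, ?_⟩
    rw [eq_top_iff]
    intro w _
    have h2 : w ∈ Submodule.span O (S : Set (RingHom.ker φ).Cotangent) := by
      rw [hS]; exact Submodule.mem_top
    refine Submodule.span_induction (p := fun w _ => w ∈ Submodule.span (ZMod p)
      (S : Set (RingHom.ker φ).Cotangent)) ?_ ?_ ?_ ?_ h2
    · intro x hx; exact Submodule.subset_span hx
    · exact zero_mem _
    · intro x x' _ _ hx hx'; exact add_mem hx hx'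
    · intro r x _ hx
      rw [smul_eq]
      exact Submodule.smul_mem _ _ hx
  set e := Module.finrank (ZMod p) (RingHom.ker φ).Cotangent with he
  let B := Module.finBasis (ZMod p) (RingHom.ker φ).Cotangent
  choose y hy using fun i => (RingHom.ker φ).toCotangent_surjective (B i)
  refine ⟨e, fun i => (y i : O), ?_, fun i => (y i).2, ?_⟩
  · -- the bound
    let F : ((RingHom.ker φ).Cotangent →ₗ[ZMod p] ZMod p) → (Fin 3 → A →* Multiplicative (ZMod p)) :=
      fun l => ![chr ρ φ hφ l 0 0, chr ρ φ hφ l 0 1, chr ρ φ hφ l 1 0]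
    have hF : Function.Injective F := by
      intro l l' hl
      have h0 : chr ρ φ hφ l 0 0 = chr ρ φ hφ l' 0 0 := congrFun hl 0
      have h1 : chr ρ φ hφ l 0 1 = chr ρ φ hφ l' 0 1 := congrFun hl 1
      have h2 : chr ρ φ hφ l 1 0 = chr ρ φ hφ l' 1 0 := congrFun hl 2
      have key : ∀ i j, chr ρ φ hφ l i j = chr ρ φ hφ l' i j → ∀ a,
          l ((RingHom.ker φ).toCotangent (en ρ φ hφ a i j)) =
            l' ((RingHom.ker φ).toCotangent (en ρ φ hφ a i j)) := by
        intro i j h a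
        exact congrArg (fun f : A →* Multiplicative (ZMod p) => Multiplicative.toAdd (f a)) h
      have h3 : LinearMap.ker (l - l') = ⊤ := by
        refine span_top ρ φ hφ hgen _ ?_
        intro a i j
        rw [LinearMap.mem_ker, LinearMap.sub_apply, sub_eq_zero]
        fin_cases i <;> fin_cases j
        · exact key 0 0 h0 a
        · exact key 0 1 h1 a
        · exact key 1 0 h2 a
        · show l ((RingHom.ker φ).toCotangent (en ρ φ hφ a 1 1)) =
            l' ((RingHom.ker φ).toCotangent (en ρ φ hφ a 1 1))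
          rw [en_trace, map_neg, map_neg, key 0 0 h0 a]
      rw [LinearMap.ker_eq_top] at h3
      exact sub_eq_zero.1 h3
    have h1 : Nat.card ((RingHom.ker φ).Cotangent →ₗ[ZMod p] ZMod p) ≤
        Nat.card (Fin 3 → A →* Multiplicative (ZMod p)) := Nat.card_le_card_of_injective F hF
    have h2 : Nat.card ((RingHom.ker φ).Cotangent →ₗ[ZMod p] ZMod p) = p ^ e := by
      have h3 : Module.finrank (ZMod p) (Module.Dual (ZMod p) (RingHom.ker φ).Cotangent) = e :=
        Subspace.dual_finrank_eq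
      have h4 := Module.natCard_eq_pow_finrank (K := ZMod p)
        (V := Module.Dual (ZMod p) (RingHom.ker φ).Cotangent)
      rw [h3, Nat.card_zmod] at h4
      exact h4
    have h3 : Nat.card (Fin 3 → A →* Multiplicative (ZMod p)) ≤ p ^ (3 * b) := by
      rw [Nat.card_fun, Nat.card_fin, mul_comm, pow_mul]
      exact Nat.pow_le_pow_left hb 3
    rw [h2] at h1
    exact (Nat.pow_le_pow_iff_right hp.out.one_lt).1 (h1.trans h3)
  · intro c hc
    have h1 := B.sum_repr ((RingHom.ker φ).toCotangent ⟨c, hc⟩)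
    have h2 : (RingHom.ker φ).toCotangent (∑ i, (algebraMap (ZMod p) O
        (B.repr ((RingHom.ker φ).toCotangent ⟨c, hc⟩) i)) • y i) =
        (RingHom.ker φ).toCotangent ⟨c, hc⟩ := by
      rw [map_sum]
      conv_rhs => rw [← h1]
      refine Finset.sum_congr rfl fun i _ => ?_
      rw [map_smul, hy, algebraMap_smul]
    rw [Ideal.toCotangent_eq] at h2
    have h3 : c = ((∑ i, (algebraMap (ZMod p) O
        (B.repr ((RingHom.ker φ).toCotangent ⟨c, hc⟩) i)) • y i : RingHom.ker φ) : O) -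
        (((∑ i, (algebraMap (ZMod p) O
        (B.repr ((RingHom.ker φ).toCotangent ⟨c, hc⟩) i)) • y i : RingHom.ker φ) : O) - c) := by
      ring
    rw [h3]
    refine sub_mem (Submodule.mem_sup_left ?_) (Submodule.mem_sup_right h2)
    rw [AddSubmonoidClass.coe_finsetSum]
    exact Ideal.sum_mem _ fun i _ => Ideal.mul_mem_left _ _ (Ideal.subset_span ⟨i, rfl⟩)

include hφ in
/-- LEMMA D. -/
theorem lemD [IsDomain O] [Algebra.FiniteType (ZMod p) O]
    (hgen : Algebra.adjoin (ZMod p) {x : O | ∃ a i j, x = (ρ a : Matrix (Fin 2) (Fin 2) O) i j} = ⊤)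
    (b : ℕ) [Finite (A →* Multiplicative (ZMod p))]
    (hb : Nat.card (A →* Multiplicative (ZMod p)) ≤ p ^ b) :
    Algebra.trdeg (ZMod p) O ≤ ((3 * b : ℕ) : Cardinal) := by
  have : IsNoetherianRing O := Algebra.FiniteType.isNoetherianRing (ZMod p) O
  obtain ⟨e, y, h1, h2, h3⟩ := exists_gen ρ φ hφ hgen b hb
  exact (trdeg_le y φ h2 h3).trans (by exact_mod_cast h1)

end Pool.Agent.FrX
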